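import Pool.Agent.Q67.TR.Geo

/-!
# The closing lemma, families of disjoint bad blocks, and covering
-/

namespace Pool.Agent.Q67.TR

open Set

/-- every non-constant periodic sequence visits the closure of the hole -/
def Trap (H : Set (ℝ × ℝ)) : Prop :=
  ∀ v : ℤ → Bool, ∀ p : ℤ, 0 < p → (∀ i, v (i + p) = v i) → (¬ ∀ i j, v i = v j) →
    ∃ i, (px v i, py v i) ∈ closure H

lemma closing {H : Set (ℝ × ℝ)} (htrap : Trap H) {u : ℤ → Bool} {m n : ℤ} {L : ℕ}
    (hmn : m < n) (hW : W u (m - L) (2*L) = W u (n - L) (2*L)) (hnc : ¬ cst u m L) :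
    ∃ i, m ≤ i ∧ i < n ∧ near H u i (L + (min (i - m) (n - i)).toNat) := by
  have hp : 0 < n - m := by linarith
  have hu : ∀ t : ℤ, -L < t → t ≤ L → u (m + t) = u (n + t) := by
    intro t h1 h2
    rw [W_eq_iff] at hW
    have h3 := hW (t + L - 1).toNat (by omega)
    have h4 : (m - L + 1 + ((t + L - 1).toNat : ℤ) : ℤ) = m + t := by omega
    have h5 : (n - L + 1 + ((t + L - 1).toNat : ℤ) : ℤ) = n + t := by omega
    rw [h4, h5] at h3; exact h3
  obtain ⟨v, hv⟩ : ∃ v : ℤ → Bool, v = fun j => u (m + 1 + (j - m - 1) % (n - m)) := ⟨_, rfl⟩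
  have hper : ∀ j k, v (j + (n - m) * k) = v j := by
    intro j k
    simp only [hv]
    congr 2
    rw [show j + (n - m) * k - m - 1 = (j - m - 1) + (n - m) * k by ring, Int.add_mul_emod_self_left]
  have hper1 : ∀ j, v (j + (n - m)) = v j := by
    intro j; have := hper j 1; rwa [mul_one] at this
  have hA : ∀ d : ℕ, ∀ j, m < j → j ≤ n + L → j ≤ m + d → v j = u j := by
    intro d
    induction d with
    | zero => intro j h1 _ h3; omega
    | succ d ih =>
      intro j h1 h2 h3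
      by_cases h4 : j ≤ n
      · simp only [hv]
        rw [Int.emod_eq_of_lt (by omega) (by omega)]
        congr 1; ring
      · have h5 := ih (j - (n - m)) (by omega) (by omega) (by omega)
        have h6 := hper1 (j - (n - m))
        have h7 := hu (j - n) (by omega) (by omega)
        rw [sub_add_cancel] at h6
        rw [h6, h5, show j - (n - m) = m + (j - n) by ring, h7]
        congr 1; ring
  have hA' : ∀ j, m < j → j ≤ n + L → v j = u j := fun j h1 h2 =>
    hA (j - m).toNat j h1 h2 (by omega)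
  have hB : ∀ d : ℕ, ∀ j, m - L < j → j ≤ n → n ≤ j + d → v j = u j := by
    intro d
    induction d with
    | zero => intro j h1 h2 h3; exact hA' j (by omega) (by omega)
    | succ d ih =>
      intro j h1 h2 h3
      by_cases h4 : m < j
      · exact hA' j h4 (by omega)
      · have h5 := ih (j + (n - m)) (by omega) (by omega) (by omega)
        have h7 := hu (j - m) (by omega) (by omega)
        rw [← hper1 j, h5]
        rw [show m + (j - m) = j by ring] at h7
        rw [h7]; congr 1; ring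
  have hAB : ∀ j, m - L < j → j ≤ n + L → v j = u j := by
    intro j h1 h2
    by_cases h3 : m < j
    · exact hA' j h3 h2
    · exact hB (n - j).toNat j h1 (by omega) (by omega)
  have hnconst : ¬ ∀ i j, v i = v j := by
    intro h
    apply hnc
    intro j h1 h2
    rw [← hAB j (by omega) (by omega), ← hAB m (by omega) (by omega)]
    exact h _ _
  obtain ⟨i0, hi0⟩ := htrap v (n - m) hp hper1 hnconst
  refine ⟨m + (i0 - m) % (n - m), ?_, ?_, ?_⟩
  · have := Int.emod_nonneg (i0 - m) hp.ne'; omega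
  · have := Int.emod_lt_of_pos (i0 - m) hp; omega
  set i := m + (i0 - m) % (n - m) with hi
  have hi1 : m ≤ i := by have := Int.emod_nonneg (i0 - m) hp.ne'; omega
  have hi2 : i < n := by have := Int.emod_lt_of_pos (i0 - m) hp; omega
  obtain ⟨K, hi3⟩ : ∃ K, i0 = i + (n - m) * K := by
    refine ⟨(i0 - m) / (n - m), ?_⟩
    have := Int.emod_add_mul_ediv (i0 - m) (n - m)
    rw [hi]; linarith
  have hpx : px v i0 = px v i := by
    unfold px
    congr 1; ext k
    rw [← hper (i + 1 + k) K]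
    congr 1; rw [hi3]; ring
  have hpy : py v i0 = py v i := by
    unfold py
    congr 1; ext k
    rw [← hper (i - k) K]
    congr 1; rw [hi3]; ring
  rw [hpx, hpy] at hi0
  refine ⟨_, hi0, ?_, ?_⟩
  · apply val_close
    intro k hk
    exact (hAB _ (by omega) (by omega)).symm
  · apply val_close
    intro k hk
    exact (hAB _ (by omega) (by omega)).symm

/-- `Fam H u L i n t`: the window `(i, i+n]` contains disjoint bad blocks of radius `≥ L` of
total length `t` -/
inductive Fam (H : Set (ℝ × ℝ)) (u : ℤ → Bool) (L : ℕ) : ℤ → ℕ → ℕ → Prop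
  | nil (i : ℤ) (n : ℕ) : Fam H u L i n 0
  | cons (i j : ℤ) (g c n n' t t' : ℕ) (hc : L ≤ c) (hj : j = i + g + c) (hb : bad H u j c)
      (hn : n' = g + 2 * c + n) (ht : t' = t + 2 * c) (hr : Fam H u L (j + c) n t) :
      Fam H u L i n' t'

lemma Fam.gap {H : Set (ℝ × ℝ)} {u : ℤ → Bool} {L : ℕ} {i : ℤ} {n t : ℕ} (g : ℕ)
    (h : Fam H u L i n t) : ∀ i' n', i' = i - g → n' = g + n → Fam H u L i' n' t := by
  intro i' n' hi hn
  cases h with
  | nil => exact Fam.nil _ _
  | cons _ j g' c n'' _ t'' _ hc hj hb hn2 ht hr =>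
    exact Fam.cons i' j (g + g') c n'' n' t'' t hc (by rw [hi, hj]; push_cast; ring) hb
      (by omega) ht hr

lemma Fam.append {H : Set (ℝ × ℝ)} {u : ℤ → Bool} {L : ℕ} {i : ℤ} {n t : ℕ}
    (h : Fam H u L i n t) : ∀ {i' : ℤ} {m s : ℕ}, i' = i + n → Fam H u L i' m s →
      Fam H u L i (n + m) (t + s) := by
  induction h with
  | nil i n =>
    intro i' m s hi h'
    rw [zero_add]
    exact h'.gap n _ _ (by rw [hi]; ring) rfl
  | cons i j g c n n' t t' hc hj hb hn ht _ ih =>
    intro i' m s hi h'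
    refine Fam.cons i j g c (n + m) _ (t + s) _ hc hj hb (by omega) (by omega)
      (ih ?_ h')
    rw [hi, hj, hn]; push_cast; ring

lemma vit {H : Set (ℝ × ℝ)} {u : ℤ → Bool} {L : ℕ} (hL : 1 ≤ L) : ∀ (n : ℕ) (i : ℤ)
    (M : Finset ℤ), (∀ m ∈ M, ∃ j : ℤ, ∃ c : ℕ, L ≤ c ∧ bad H u j c ∧ i ≤ j - c ∧ j + c ≤ i + n ∧
      j - c < m ∧ m ≤ j + c) → ∃ t, Fam H u L i n t ∧ M.card ≤ 3 * t := by
  intro n
  induction n using Nat.strong_induction_on with
  | _ n ih =>
  intro i M hM
  classical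
  rcases M.eq_empty_or_nonempty with hE | ⟨m0, hm0⟩
  · exact ⟨0, Fam.nil _ _, by simp [hE]⟩
  -- the largest radius
  let P : ℕ → Prop := fun c => ∃ j : ℤ, L ≤ c ∧ bad H u j c ∧ i ≤ j - c ∧ j + c ≤ i + n
  obtain ⟨j1, c1, hc1, hb1, h11, h12, _, _⟩ := hM m0 hm0
  have hP1 : P c1 := ⟨j1, hc1, hb1, h11, h12⟩
  have hc1n : c1 ≤ n := by omega
  have hspec : P (Nat.findGreatest P n) := Nat.findGreatest_spec (P := P) hc1n hP1
  have hmax : ∀ c, P c → c ≤ Nat.findGreatest P n := by
    intro c hc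
    apply Nat.le_findGreatest _ hc
    obtain ⟨j, _, _, _, _⟩ := hc
    omega
  obtain ⟨c0, hc0def⟩ : ∃ c0, c0 = Nat.findGreatest P n := ⟨_, rfl⟩
  rw [← hc0def] at hspec hmax
  obtain ⟨j0, hc0, hb0, h01, h02⟩ := hspec
  -- left and right
  let ML := M.filter (fun m => ∃ j : ℤ, ∃ c : ℕ, L ≤ c ∧ bad H u j c ∧ i ≤ j - c ∧
    j + c ≤ i + ((j0 - c0 - i).toNat : ℤ) ∧ j - c < m ∧ m ≤ j + c)
  let MR := M.filter (fun m => ∃ j : ℤ, ∃ c : ℕ, L ≤ c ∧ bad H u j c ∧ j0 + c0 ≤ j - c ∧
    j + c ≤ j0 + c0 + ((i + n - j0 - c0).toNat : ℤ) ∧ j - c < m ∧ m ≤ j + c)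
  obtain ⟨t1, hF1, ht1⟩ := ih (j0 - c0 - i).toNat (by omega) i ML
    (fun m hm => (Finset.mem_filter.1 hm).2)
  obtain ⟨t2, hF2, ht2⟩ := ih (i + n - j0 - c0).toNat (by omega) (j0 + c0) MR
    (fun m hm => (Finset.mem_filter.1 hm).2)
  have hF3 : Fam H u L (j0 - c0) (2 * c0 + (i + n - j0 - c0).toNat) (t2 + 2 * c0) :=
    Fam.cons _ j0 0 c0 _ _ t2 _ hc0 (by push_cast; ring) hb0 (by ring) rfl hF2
  have hF4 := hF1.append (i' := j0 - c0) (by omega) hF3
  refine ⟨t1 + (t2 + 2 * c0), ?_, ?_⟩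
  · have e : (j0 - c0 - i).toNat + (2 * c0 + (i + n - j0 - c0).toNat) = n := by omega
    rw [e] at hF4; exact hF4
  have hsub : M ⊆ (ML ∪ MR) ∪ Finset.Ioc (j0 - 3 * c0) (j0 + 3 * c0) := by
    intro m hm
    by_contra hcon
    simp only [Finset.mem_union, not_or, Finset.mem_Ioc] at hcon
    obtain ⟨⟨hl, hr⟩, hmid⟩ := hcon
    obtain ⟨j, c, hc, hb, h1, h2, h3, h4⟩ := hM m hm
    have hcle : c ≤ c0 := hmax c ⟨j, hc, hb, h1, h2⟩
    have hl' : ¬ (j + c ≤ j0 - c0) := by
      intro h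
      apply hl
      rw [Finset.mem_filter]
      exact ⟨hm, j, c, hc, hb, h1, by omega, h3, h4⟩
    have hr' : ¬ (j0 + c0 ≤ j - c) := by
      intro h
      apply hr
      rw [Finset.mem_filter]
      exact ⟨hm, j, c, hc, hb, h, by omega, h3, h4⟩
    apply hmid
    constructor <;> omega
  have h1 := Finset.card_le_card hsub
  have h2 := Finset.card_union_le (ML ∪ MR) (Finset.Ioc (j0 - 3 * c0) (j0 + 3 * c0))
  have h3 := Finset.card_union_le ML MR
  rw [Int.card_Ioc] at h2
  have h4 : (j0 + 3 * (c0:ℤ) - (j0 - 3 * c0)).toNat = 6 * c0 := by omega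
  rw [h4] at h2
  omega

/-- every window of a surviving sequence contains many disjoint bad blocks -/
lemma cover {H : Set (ℝ × ℝ)} (htrap : Trap H) {L : ℕ} (hL : 1 ≤ L) (u : ℤ → Bool)
    {N q : ℕ} (hq : L ≤ q) (hqN : 2 * q ≤ N) :
    ∃ t, Fam H u L 0 N t ∧ (2 * q ≤ t ∨ N ≤ 3 * t + 2 * q + (PW (2*L)).ncard) := by
  classical
  by_cases hA : ∃ i : ℤ, (q:ℤ) ≤ i ∧ i ≤ N - q ∧ bad H u i q
  · obtain ⟨i, h1, h2, hb⟩ := hA
    refine ⟨2 * q, ?_, Or.inl le_rfl⟩
    exact Fam.cons 0 i (i - q).toNat q (N - q - i).toNat N 0 _ hq (by omega) hb (by omega)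
      (by omega) (Fam.nil _ _)
  push Not at hA
  let M : Finset ℤ := Finset.Ico (q:ℤ) (N - q)
  let Q : ℤ → Prop := fun m => ∃ j : ℤ, ∃ c : ℕ, L ≤ c ∧ bad H u j c ∧ 0 ≤ j - c ∧
    j + c ≤ 0 + (N:ℤ) ∧ j - c < m ∧ m ≤ j + c
  obtain ⟨t, hF, ht⟩ := vit (H := H) (u := u) hL N 0 (M.filter Q)
    (fun m hm => (Finset.mem_filter.1 hm).2)
  refine ⟨t, hF, Or.inr ?_⟩
  have hcard : M.card = N - 2 * q := by
    simp only [M, Int.card_Ico]; omega
  have hun : (M.filter (fun m => ¬ Q m)).card ≤ (PW (2*L)).ncard := by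
    have hinj : Set.InjOn (fun m : ℤ => W u (m - L) (2*L)) ↑(M.filter (fun m => ¬ Q m)) := by
      have key : ∀ m n : ℤ, m ∈ M.filter (fun m => ¬ Q m) → n ∈ M.filter (fun m => ¬ Q m) →
          m < n → W u (m - L) (2*L) = W u (n - L) (2*L) → False := by
        intro m n hm hn hmn hW
        rw [Finset.mem_filter, Finset.mem_Ico] at hm hn
        obtain ⟨hm1, hm2⟩ := hm
        obtain ⟨hn1, hn2⟩ := hn
        have hnc : ¬ cst u m L := by
          intro h
          exact hm2 ⟨m, L, le_rfl, Or.inr h, by omega, by omega, by omega, by omega⟩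
        obtain ⟨i, hi1, hi2, hnear⟩ := closing htrap hmn hW hnc
        have hclt : L + (min (i - m) (n - i)).toNat < q := by
          by_contra hge
          push Not at hge
          exact hA i (by omega) (by omega) (bad_mono hge (Or.inl hnear))
        rcases le_total (i - m) (n - i) with h | h
        · rw [min_eq_left h] at hnear hclt
          exact hm2 ⟨i, _, by omega, Or.inl hnear, by omega, by omega, by omega, by omega⟩
        · rw [min_eq_right h] at hnear hclt
          exact hn2 ⟨i, _, by omega, Or.inl hnear, by omega, by omega, by omega, by omega⟩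
      intro m hm n hn hW
      rcases lt_trichotomy m n with h | h | h
      · exact (key m n hm hn h hW).elim
      · exact h
      · exact (key n m hn hm h hW.symm).elim
    have h1 : (M.filter (fun m => ¬ Q m)).card =
        ((fun m : ℤ => W u (m - L) (2*L)) '' ↑(M.filter (fun m => ¬ Q m))).ncard := by
      rw [hinj.ncard_image, Set.ncard_coe_finset]
    rw [h1]
    apply Set.ncard_le_ncard _ (PW_finite _)
    rintro _ ⟨m, _, rfl⟩
    exact W_mem_PW _ _ _
  have hsum : (M.filter Q).card + (M.filter (fun m => ¬ Q m)).card = M.card :=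
    Finset.card_filter_add_card_filter_not Q
  omega

end Pool.Agent.Q67.TR
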