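import Pool.Agent.Q67.TR.Geo

/-!
# The number of bad words
-/

namespace Pool.Agent.Q67.TR

open Set

lemma W_glue {u v : ℤ → Bool} {i j : ℤ} {a b : ℕ} (h1 : W u i a = W v j a)
    (h2 : W u (i+a) b = W v (j+a) b) : W u i (a+b) = W v j (a+b) := by
  rw [W_add, W_add, h1, h2]

lemma W_fut {u v : ℤ → Bool} {i j : ℤ} {c : ℕ}
    (h : pre (fun n => u (i + 1 + n)) c = pre (fun n => v (j + 1 + n)) c) :
    W u i c = W v j c := by
  rw [W_eq_iff]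
  exact pre_inj h

lemma W_past {u v : ℤ → Bool} {i j : ℤ} {c : ℕ}
    (h : pre (fun n => u (i - n)) c = pre (fun n => v (j - n)) c) :
    W u (i - c) c = W v (j - c) c := by
  rw [W_eq_iff]
  intro k hk
  have h1 := pre_inj h (c - 1 - k) (by omega)
  have h2 : (i - c + 1 + k : ℤ) = i - ((c - 1 - k : ℕ) : ℤ) := by omega
  have h3 : (j - c + 1 + k : ℤ) = j - ((c - 1 - k : ℕ) : ℤ) := by omega
  rw [h2, h3]; exact h1

lemma past_of_W {u v : ℤ → Bool} {i j : ℤ} {c : ℕ} (h : W u (i - c) c = W v (j - c) c) :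
    ∀ n < c, u (i - n) = v (j - n) := by
  rw [W_eq_iff] at h
  intro n hn
  have h1 := h (c - 1 - n) (by omega)
  have h2 : (i - c + 1 + ((c - 1 - n : ℕ) : ℤ) : ℤ) = i - n := by omega
  have h3 : (j - c + 1 + ((c - 1 - n : ℕ) : ℤ) : ℤ) = j - n := by omega
  rw [h2, h3] at h1; exact h1

/-- sample space of near positions -/
def SN (H : Set (ℝ × ℝ)) (c : ℕ) : Set ((ℤ → Bool) × ℤ) := {p | p.1 ∈ YH H ∧ near H p.1 p.2 c}

/-- flat positions -/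
def SF (H : Set (ℝ × ℝ)) (c k : ℕ) (σ : ℝ) : Set ((ℤ → Bool) × ℤ) :=
  {p | p ∈ SN H c ∧ ∀ T ∈ H, σ * T.2 < σ * py p.1 p.2 + (1/2:ℝ)^k}

/-- steep positions -/
def SS (H : Set (ℝ × ℝ)) (c k : ℕ) (σ : ℝ) : Set ((ℤ → Bool) × ℤ) :=
  {p | p ∈ SN H c ∧ (∃ T ∈ H, py p.1 p.2 + (1/2:ℝ)^k ≤ T.2) ∧
    (∃ T ∈ H, T.2 ≤ py p.1 p.2 - (1/2:ℝ)^k) ∧ ∃ z ∈ H, z.2 = py p.1 p.2 ∧
      σ * px p.1 p.2 < σ * z.1}

/-- the block function -/
def fb (c : ℕ) (p : (ℤ → Bool) × ℤ) : ℕ → Bool := W p.1 (p.2 - c) (2*c)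

lemma fb_finite (c : ℕ) (U : Set ((ℤ → Bool) × ℤ)) : (fb c '' U).Finite :=
  (PW_finite (2*c)).subset (by rintro _ ⟨u, _, rfl⟩; exact W_mem_PW _ _ _)

lemma count_SF {H : Set (ℝ × ℝ)} {c k : ℕ} (hk : k ≤ c) {σ : ℝ} (hσ : σ = 1 ∨ σ = -1) :
    (fb c '' SF H c k σ).ncard ≤ (Lg (YH H) (c-k)).ncard * (5 * (Lg (YH H) c).ncard) := by
  -- the three pieces
  have hsub1 : (fun p : (ℤ → Bool) × ℤ => W p.1 (p.2 - c) (c - k)) '' SF H c k σ ⊆
      Lg (YH H) (c-k) := by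
    rintro _ ⟨p, hp, rfl⟩; exact ⟨p.1, hp.1.1, _, rfl⟩
  have hsub3 : (fun p : (ℤ → Bool) × ℤ => W p.1 p.2 c) '' SF H c k σ ⊆ Lg (YH H) c := by
    rintro _ ⟨p, hp, rfl⟩; exact ⟨p.1, hp.1.1, _, rfl⟩
  have hpre : ∀ p ∈ SF H c k σ, ∀ q ∈ SF H c k σ,
      pre (fun n => p.1 (p.2 - n)) k ≤ pre (fun n => q.1 (q.2 - n)) k + 4 := by
    intro p hp q hq
    have hpow : (1/2:ℝ)^c ≤ (1/2:ℝ)^k := pow_le_pow_of_le_one (by norm_num) (by norm_num) hk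
    have aux : ∀ p ∈ SF H c k σ, ∀ q ∈ SF H c k σ, σ * py q.1 q.2 - σ * py p.1 p.2
        ≤ 3 * (1/2:ℝ)^k := by
      intro p hp q hq
      obtain ⟨T, hT, _, h2⟩ := near_H hq.1.2
      have h3 := hp.2 T hT
      rw [abs_le] at h2
      rcases hσ with rfl | rfl
      · linarith [h2.1, h2.2]
      · linarith [h2.1, h2.2]
    have h1 := aux p hp q hq
    have h2 := aux q hq p hp
    have h3 : |py p.1 p.2 - py q.1 q.2| ≤ 3 * (1/2:ℝ)^k := by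
      rw [abs_le]
      rcases hσ with rfl | rfl <;> constructor <;> linarith
    have h4 : |py p.1 p.2 - py q.1 q.2| * 2^k ≤ 3 := by
      have h5 := mul_le_mul_of_nonneg_right h3 (by positivity : (0:ℝ) ≤ 2^k)
      have h6 : 3 * (1/2:ℝ)^k * 2^k = 3 := by
        rw [mul_assoc, ← mul_pow]; norm_num
      linarith
    have h5 := pre_close h4
    have h6 : (pre (fun n => p.1 (p.2 - n)) k : ℝ) ≤
        ((pre (fun n => q.1 (q.2 - n)) k + 4 : ℕ) : ℝ) := by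
      push_cast; linarith
    exact_mod_cast h6
  have himg := image_pre hpre
  have h2 : ((fun p : (ℤ → Bool) × ℤ => W p.1 (p.2 - k) k) '' SF H c k σ).ncard ≤ 5 := by
    refine (ncard_factor (g := fun p : (ℤ → Bool) × ℤ => pre (fun n => p.1 (p.2 - n)) k)
      ?_ himg.1).trans himg.2
    intro u _ v _ huv
    exact W_past huv
  have hfin2 : ((fun p : (ℤ → Bool) × ℤ => W p.1 (p.2 - k) k) '' SF H c k σ).Finite :=
    (PW_finite k).subset (by rintro _ ⟨u, _, rfl⟩; exact W_mem_PW _ _ _)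
  have h3 := ncard_three (U := SF H c k σ) (f := fb c)
    (g₁ := fun p : (ℤ → Bool) × ℤ => W p.1 (p.2 - c) (c - k))
    (g₂ := fun p : (ℤ → Bool) × ℤ => W p.1 (p.2 - k) k)
    (g₃ := fun p : (ℤ → Bool) × ℤ => W p.1 p.2 c) ?_
    ((Lg_finite _ _).subset hsub1) hfin2 ((Lg_finite _ _).subset hsub3)
  · refine h3.trans ?_
    exact Nat.mul_le_mul (Set.ncard_le_ncard hsub1 (Lg_finite _ _))
      (Nat.mul_le_mul h2 (Set.ncard_le_ncard hsub3 (Lg_finite _ _)))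
  · intro u _ v _ e1 e2 e3
    have e4 : W u.1 (u.2 - c) ((c - k) + k) = W v.1 (v.2 - c) ((c-k) + k) := by
      apply W_glue e1
      have a1 : (u.2 - c + ((c - k : ℕ) : ℤ) : ℤ) = u.2 - k := by omega
      have a2 : (v.2 - c + ((c - k : ℕ) : ℤ) : ℤ) = v.2 - k := by omega
      rw [a1, a2]; exact e2
    rw [Nat.sub_add_cancel hk] at e4
    have e5 : W u.1 (u.2 - c) (c + c) = W v.1 (v.2 - c) (c + c) := by
      apply W_glue e4
      rw [sub_add_cancel, sub_add_cancel]; exact e3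
    unfold fb
    rw [two_mul]; exact e5

lemma count_SS {H : Set (ℝ × ℝ)} (hc : Convex ℝ H) (hX : H ⊆ Icc 0 1 ×ˢ Icc 0 1)
    {c k : ℕ} {σ : ℝ} (hσ : σ = 1 ∨ σ = -1) :
    (fb c '' SS H c k σ).ncard ≤ (5 * 2^k + 2) * (Lg (YH H) c).ncard := by
  have hsub : (fun p : (ℤ → Bool) × ℤ => W p.1 (p.2 - c) c) '' SS H c k σ ⊆ Lg (YH H) c := by
    rintro _ ⟨p, hp, rfl⟩; exact ⟨p.1, hp.1.1, _, rfl⟩
  have h := ncard_fiber (U := SS H c k σ) (f := fb c)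
    (g := fun p : (ℤ → Bool) × ℤ => W p.1 (p.2 - c) c) (R := 5 * 2^k + 2)
    ((Lg_finite _ _).subset hsub) (fb_finite c _) ?_
  · exact h.trans (Nat.mul_le_mul le_rfl (Set.ncard_le_ncard hsub (Lg_finite _ _)))
  intro u _
  have hpre : ∀ p ∈ {v | v ∈ SS H c k σ ∧ W v.1 (v.2 - c) c = W u.1 (u.2 - c) c},
      ∀ q ∈ {v | v ∈ SS H c k σ ∧ W v.1 (v.2 - c) c = W u.1 (u.2 - c) c},
      pre (fun n => p.1 (p.2 + 1 + n)) c ≤ pre (fun n => q.1 (q.2 + 1 + n)) c +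
        (5 * 2^k + 1) := by
    have aux : ∀ p ∈ {v | v ∈ SS H c k σ ∧ W v.1 (v.2 - c) c = W u.1 (u.2 - c) c},
      ∀ q ∈ {v | v ∈ SS H c k σ ∧ W v.1 (v.2 - c) c = W u.1 (u.2 - c) c},
      σ * px q.1 q.2 ≤ σ * px p.1 p.2 + 5 * 2^k * (1/2:ℝ)^c := by
      intro p hp q hq
      obtain ⟨⟨⟨hpY, hpn⟩, _, _, _⟩, hpW⟩ := hp
      obtain ⟨⟨⟨hqY, hqn⟩, ⟨T, hT, hT2⟩, ⟨T', hT', hT'2⟩, z, hz, hz2, hz1⟩, hqW⟩ := hq
      obtain ⟨r, hr, hr1, hr2⟩ := near_H hpn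
      have hyy : |py p.1 p.2 - py q.1 q.2| ≤ (1/2:ℝ)^c :=
        val_close (past_of_W (hpW.trans hqW.symm))
      have h1 := conv_slide hc hX hσ (x := px p.1 p.2) (y := py p.1 p.2) (x' := px q.1 q.2)
        (y' := py q.1 q.2) (δ := (1/2:ℝ)^c) (ρ := (1/2:ℝ)^k) (by positivity) (by positivity)
        (hqY q.2) hyy hr hr1 hr2 hT hT2 hT' hT'2 hz hz2 hz1
      have h2 : 3 * (1/2:ℝ)^c / (1/2:ℝ)^k = 3 * 2^k * (1/2:ℝ)^c := by
        rw [one_div, inv_pow, inv_pow]; field_simp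
      have h3 : (1:ℝ) ≤ 2^k := one_le_pow₀ (by norm_num)
      have h4 : (0:ℝ) < (1/2)^c := by positivity
      rw [h2] at h1
      nlinarith
    intro p hp q hq
    have h1 := aux p hp q hq
    have h2 := aux q hq p hp
    have h3 : |px p.1 p.2 - px q.1 q.2| ≤ 5 * 2^k * (1/2:ℝ)^c := by
      rw [abs_le]
      rcases hσ with rfl | rfl <;> constructor <;> linarith
    have h4 : |px p.1 p.2 - px q.1 q.2| * 2^c ≤ 5 * 2^k := by
      have h5 := mul_le_mul_of_nonneg_right h3 (by positivity : (0:ℝ) ≤ 2^c)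
      have h6 : 5 * 2^k * (1/2:ℝ)^c * 2^c = 5 * 2^k := by
        rw [mul_assoc (5 * 2^k), ← mul_pow]; norm_num
      linarith
    have h5 := pre_close h4
    have h6 : (pre (fun n => p.1 (p.2 + 1 + n)) c : ℝ) ≤
        ((pre (fun n => q.1 (q.2 + 1 + n)) c + (5 * 2^k + 1) : ℕ) : ℝ) := by
      push_cast; linarith
    exact_mod_cast h6
  have himg := image_pre hpre
  refine (ncard_factor (g := fun p : (ℤ → Bool) × ℤ => pre (fun n => p.1 (p.2 + 1 + n)) c)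
      ?_ himg.1).trans himg.2
  intro v hv w hw hvw
  have e1 : W v.1 (v.2 - c) c = W w.1 (w.2 - c) c := hv.2.trans hw.2.symm
  have e2 : W v.1 v.2 c = W w.1 w.2 c := W_fut hvw
  have e5 : W v.1 (v.2 - c) (c + c) = W w.1 (w.2 - c) (c + c) := by
    apply W_glue e1
    rw [sub_add_cancel, sub_add_cancel]; exact e2
  unfold fb
  rw [two_mul]; exact e5

lemma slice_point {H : Set (ℝ × ℝ)} (hc : Convex ℝ H) {y : ℝ} {T T' : ℝ × ℝ} (hT : T ∈ H)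
    (hT' : T' ∈ H) (h1 : y < T.2) (h2 : T'.2 < y) : ∃ z ∈ H, z.2 = y := by
  have hpos : 0 < T.2 - T'.2 := by linarith
  set l := (y - T'.2) / (T.2 - T'.2) with hl
  refine ⟨(1 - l) • T' + l • T, hc hT' hT ?_ ?_ (by ring), ?_⟩
  · have : l ≤ 1 := by rw [hl, div_le_one hpos]; linarith
    linarith
  · exact div_nonneg (by linarith) hpos.le
  · simp only [Prod.snd_add, Prod.smul_snd, smul_eq_mul]
    have : l * (T.2 - T'.2) = y - T'.2 := by rw [hl]; field_simp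
    linarith

lemma SN_split {H : Set (ℝ × ℝ)} (hc : Convex ℝ H) (c k : ℕ) :
    SN H c ⊆ (SF H c k 1 ∪ SF H c k (-1)) ∪ (SS H c k 1 ∪ SS H c k (-1)) := by
  intro p hp
  by_cases h1 : ∀ T ∈ H, (1:ℝ) * T.2 < 1 * py p.1 p.2 + (1/2:ℝ)^k
  · exact Or.inl (Or.inl ⟨hp, h1⟩)
  by_cases h2 : ∀ T ∈ H, (-1:ℝ) * T.2 < (-1) * py p.1 p.2 + (1/2:ℝ)^k
  · exact Or.inl (Or.inr ⟨hp, h2⟩)
  push Not at h1 h2
  obtain ⟨T, hT, hT2⟩ := h1
  obtain ⟨T', hT', hT'2⟩ := h2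
  have hpos : (0:ℝ) < (1/2)^k := by positivity
  obtain ⟨z, hz, hz2⟩ := slice_point hc (y := py p.1 p.2) hT hT' (by linarith) (by linarith)
  right
  have hne : px p.1 p.2 ≠ z.1 := by
    intro he
    apply hp.1 p.2
    rw [he, ← hz2]; exact hz
  have hA : ∃ T ∈ H, py p.1 p.2 + (1/2:ℝ)^k ≤ T.2 := ⟨T, hT, by linarith⟩
  have hB : ∃ T ∈ H, T.2 ≤ py p.1 p.2 - (1/2:ℝ)^k := ⟨T', hT', by linarith⟩
  rcases lt_or_gt_of_ne hne with h | h
  · left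
    exact ⟨hp, hA, hB, z, hz, hz2, by linarith⟩
  · right
    exact ⟨hp, hA, hB, z, hz, hz2, by linarith⟩

lemma count_cst (c : ℕ) :
    {w | ∃ u : ℤ → Bool, ∃ i, cst u i c ∧ w = W u (i - c) (2*c)}.ncard ≤ 2 := by
  have hsub : {w | ∃ u : ℤ → Bool, ∃ i, cst u i c ∧ w = W u (i - c) (2*c)} ⊆
      (fun b : Bool => W (fun _ => b) 0 (2*c)) '' Set.univ := by
    rintro _ ⟨u, i, h, rfl⟩
    refine ⟨u i, trivial, ?_⟩
    rw [W_eq_iff]
    intro k hk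
    exact (h _ (by omega) (by omega)).symm
  refine (Set.ncard_le_ncard hsub (Set.toFinite _)).trans ?_
  refine (Set.ncard_image_le (Set.toFinite _)).trans ?_
  rw [Set.ncard_univ, Nat.card_eq_fintype_card, Fintype.card_bool]

/-- **number of bad words** -/
lemma count_Bd {H : Set (ℝ × ℝ)} (hc : Convex ℝ H) (hX : H ⊆ Icc 0 1 ×ˢ Icc 0 1)
    {c k : ℕ} (hk : k ≤ c) :
    (Bd H c).ncard ≤ 2 * ((Lg (YH H) (c-k)).ncard * (5 * (Lg (YH H) c).ncard)) +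
      2 * ((5 * 2^k + 2) * (Lg (YH H) c).ncard) + 2 := by
  have hcf : {w | ∃ u : ℤ → Bool, ∃ i, cst u i c ∧ w = W u (i - c) (2*c)}.Finite :=
    (PW_finite (2*c)).subset (by rintro _ ⟨u, i, _, rfl⟩; exact W_mem_PW _ _ _)
  have hsub : Bd H c ⊆ ((fb c '' SF H c k 1 ∪ fb c '' SF H c k (-1)) ∪
      (fb c '' SS H c k 1 ∪ fb c '' SS H c k (-1))) ∪
      {w | ∃ u : ℤ → Bool, ∃ i, cst u i c ∧ w = W u (i - c) (2*c)} := by
    rintro _ ⟨u, hu, i, hb, rfl⟩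
    rcases hb with hb | hb
    · left
      have hmem : (u, i) ∈ SN H c := ⟨hu, hb⟩
      rcases SN_split hc c k hmem with (h | h) | (h | h)
      · exact Or.inl (Or.inl ⟨_, h, rfl⟩)
      · exact Or.inl (Or.inr ⟨_, h, rfl⟩)
      · exact Or.inr (Or.inl ⟨_, h, rfl⟩)
      · exact Or.inr (Or.inr ⟨_, h, rfl⟩)
    · right
      exact ⟨u, i, hb, rfl⟩
  have hfin := (((fb_finite c (SF H c k 1)).union (fb_finite c (SF H c k (-1)))).union
    ((fb_finite c (SS H c k 1)).union (fb_finite c (SS H c k (-1))))).union hcf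
  refine (Set.ncard_le_ncard hsub hfin).trans ?_
  refine (Set.ncard_union_le _ _).trans ?_
  refine Nat.add_le_add ?_ (count_cst c)
  refine (Set.ncard_union_le _ _).trans ?_
  have h1 := count_SF (H := H) hk (Or.inl (rfl : (1:ℝ) = 1))
  have h2 := count_SF (H := H) hk (Or.inr (rfl : (-1:ℝ) = -1))
  have h3 := count_SS hc hX (c := c) (k := k) (Or.inl (rfl : (1:ℝ) = 1))
  have h4 := count_SS hc hX (c := c) (k := k) (Or.inr (rfl : (-1:ℝ) = -1))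
  have h5 := Set.ncard_union_le (fb c '' SF H c k 1) (fb c '' SF H c k (-1))
  have h6 := Set.ncard_union_le (fb c '' SS H c k 1) (fb c '' SS H c k (-1))
  omega

end Pool.Agent.Q67.TR
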