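import Pool.Agent.Q67.TR.Zero

/-!
# Dimension zero, and the link with the baker's map
-/

namespace Pool.Agent.Q67.TR

open Set Filter Topology MeasureTheory
open scoped ENNReal NNReal

/-- the survivor set in coding form -/
def Jc (H : Set (ℝ × ℝ)) : Set (ℝ × ℝ) :=
  {P | ∃ u : ℤ → Bool, (px u 0, py u 0) = P ∧ ∀ n : ℤ, (px u n, py u n) ∉ H}

lemma cyl_diam (Y : Set (ℤ → Bool)) (n : ℕ) (w : ℕ → Bool) :
    Metric.ediam {P : ℝ × ℝ | ∃ u ∈ Y, (px u 0, py u 0) = P ∧ W u (0 - n) (2*n) = w} ≤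
      ENNReal.ofReal ((1/2:ℝ)^n) := by
  apply Metric.ediam_le
  rintro _ ⟨u, _, rfl, hu⟩ _ ⟨v, _, rfl, hv⟩
  have h := hu.trans hv.symm
  rw [W_eq_iff] at h
  rw [edist_dist]
  apply ENNReal.ofReal_le_ofReal
  rw [Prod.dist_eq, Real.dist_eq, Real.dist_eq]
  apply max_le
  · apply val_close
    intro j hj
    have h1 := h (n + j) (by omega)
    have e : (0 - (n:ℤ) + 1 + ((n + j : ℕ) : ℤ)) = 0 + 1 + j := by omega
    rw [e] at h1; exact h1
  · apply val_close
    intro j hj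
    have h1 := h (n - 1 - j) (by omega)
    have e : (0 - (n:ℤ) + 1 + ((n - 1 - j : ℕ) : ℤ)) = 0 - j := by omega
    rw [e] at h1; exact h1

lemma dim_Jc {H : Set (ℝ × ℝ)} (hc : Convex ℝ H) (hX : H ⊆ Icc 0 1 ×ˢ Icc 0 1)
    (htrap : Trap H) : dimH (Jc H) = 0 := by
  classical
  rcases (YH H).eq_empty_or_nonempty with hE | hne
  · have : Jc H = ∅ := by
      ext P
      simp only [Jc, Set.mem_ofPred_eq, Set.mem_empty_iff_false, iff_false]
      rintro ⟨u, _, hu⟩
      have : u ∈ YH H := hu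
      rw [hE] at this; exact this
    rw [this]; exact dimH_empty
  have hlim := lim_eq_zero hc hX htrap hne
  rw [← nonpos_iff_eq_zero]
  refine le_of_forall_gt_imp_ge_of_dense (fun a ha => ?_) |>.trans le_rfl
  obtain ⟨d, hd0, hda⟩ := ENNReal.lt_iff_exists_nnreal_btwn.1 ha
  refine le_trans ?_ hda.le
  have hd : (0:ℝ) < d := by exact_mod_cast hd0
  apply dimH_le_of_hausdorffMeasure_ne_top
  have hlog : 0 < Real.log 2 := Real.log_pos (by norm_num)
  obtain ⟨C, hC, hN⟩ := Nw_upper hne (ε := d * Real.log 2 / 2) (by positivity)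
  rw [hlim] at hN
  have hle := Measure.hausdorffMeasure_le_liminf_sum (β := ℕ)
    (ι := fun n => ↥(Lg_finite (YH H) (2*n)).toFinset) (d := (d:ℝ)) (s := Jc H) (l := atTop)
    (r := fun n => ENNReal.ofReal ((1/2:ℝ)^n)) ?_
    (t := fun n w => {P | ∃ u ∈ YH H, (px u 0, py u 0) = P ∧ W u (0 - n) (2*n) = w.1}) ?_ ?_
  · refine ne_top_of_le_ne_top (ENNReal.ofReal_ne_top (r := C)) (hle.trans ?_)
    apply Filter.liminf_le_of_frequently_le'
    apply Filter.Frequently.of_forall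
    intro n
    have hdiam : ∀ w : ↥(Lg_finite (YH H) (2*n)).toFinset,
        Metric.ediam {P | ∃ u ∈ YH H, (px u 0, py u 0) = P ∧ W u (0 - n) (2*n) = w.1} ^ (d:ℝ) ≤
        ENNReal.ofReal (((1/2:ℝ)^n)^(d:ℝ)) := by
      intro w
      rw [← ENNReal.ofReal_rpow_of_pos (by positivity)]
      exact ENNReal.rpow_le_rpow (cyl_diam _ _ _) hd.le
    refine (Finset.sum_le_card_nsmul _ _ _ (fun w _ => hdiam w)).trans ?_
    rw [Finset.card_univ, Fintype.card_coe, ← Set.ncard_eq_toFinset_card _ (Lg_finite _ _), nsmul_eq_mul,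
      ← ENNReal.ofReal_natCast, ← ENNReal.ofReal_mul (by positivity)]
    apply ENNReal.ofReal_le_ofReal
    have h1 := hN (2*n)
    have h2 : ((1/2:ℝ)^n)^(d:ℝ) = Real.exp (-(d * Real.log 2 * n)) := by
      rw [← Real.rpow_natCast, ← Real.rpow_mul (by norm_num), Real.rpow_def_of_pos (by norm_num)]
      congr 1
      rw [one_div, Real.log_inv]; ring
    rw [h2]
    have h3 : (0:ℝ) < Real.exp (-(d * Real.log 2 * n)) := Real.exp_pos _
    calc ((Lg (YH H) (2*n)).ncard : ℝ) * Real.exp (-(d * Real.log 2 * n))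
        ≤ (C * Real.exp ((0 + d * Real.log 2 / 2) * ((2*n : ℕ) : ℝ))) *
          Real.exp (-(d * Real.log 2 * n)) := mul_le_mul_of_nonneg_right h1 h3.le
      _ = C * Real.exp ((0 + d * Real.log 2 / 2) * ((2*n : ℕ) : ℝ) +
          (-(d * Real.log 2 * n))) := by rw [Real.exp_add]; ring
      _ = C := by
        have : (0 + d * Real.log 2 / 2) * ((2*n : ℕ) : ℝ) + (-(d * Real.log 2 * n)) = 0 := by
          push_cast; ring
        rw [this, Real.exp_zero, mul_one]
  · have : Tendsto (fun n : ℕ => (1/2:ℝ)^n) atTop (𝓝 0) :=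
      tendsto_pow_atTop_nhds_zero_of_lt_one (by norm_num) (by norm_num)
    have h2 := ENNReal.tendsto_ofReal this
    rwa [ENNReal.ofReal_zero] at h2
  · exact Eventually.of_forall (fun n w => cyl_diam _ _ _)
  · refine Eventually.of_forall (fun n => ?_)
    rintro P ⟨u, hu, hu2⟩
    rw [Set.mem_iUnion]
    refine ⟨⟨W u (0 - n) (2*n), ?_⟩, u, hu2, hu, rfl⟩
    rw [Set.Finite.mem_toFinset]
    exact ⟨u, hu2, _, rfl⟩

/-! ### strict inequalities for values -/

lemma val_pos {a : ℕ → Bool} {k : ℕ} (h : a k = true) : 0 < val a := by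
  refine (summable_val a).tsum_pos (fun n => by positivity) k ?_
  rw [h, if_pos rfl]; positivity

lemma val_lt_one {a : ℕ → Bool} {k : ℕ} (h : a k = false) : val a < 1 := by
  rw [← tsum_geom]
  refine (summable_val a).tsum_lt_tsum (i := k) (fun n => ?_) ?_ summable_geom
  · have : (0:ℝ) ≤ (1/2)^(n+1) := by positivity
    split_ifs <;> simp
  · rw [h]; simp

lemma px_succ (u : ℤ → Bool) (i : ℤ) :
    px u i = ((if u (i+1) then (1:ℝ) else 0) + px u (i+1)) / 2 := by
  unfold px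
  rw [val_succ]
  have e : (fun n : ℕ => u (i + 1 + ((n + 1 : ℕ) : ℤ))) = fun n : ℕ => u (i + 1 + 1 + n) := by
    ext n; congr 1; push_cast; ring
  rw [e]
  simp

lemma py_succ (u : ℤ → Bool) (i : ℤ) :
    py u (i+1) = ((if u (i+1) then (1:ℝ) else 0) + py u i) / 2 := by
  unfold py
  rw [val_succ]
  have e : (fun n : ℕ => u (i + 1 - ((n + 1 : ℕ) : ℤ))) = fun n : ℕ => u (i - n) := by
    ext n; congr 1; push_cast; ring
  rw [e]
  simp

end Pool.Agent.Q67.TR
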