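import Pool.Agent.Q67.TR.Cnt
import Pool.Agent.Q67.TR.Close

/-!
# Zero entropy of the survivors of a cycle trap
-/

namespace Pool.Agent.Q67.TR

open Set Filter Topology

/-- number of words of length `n` -/
noncomputable def Nw (H : Set (ℝ × ℝ)) (n : ℕ) : ℕ := (Lg (YH H) n).ncard

/-- words of the windows with a family of total length `t` -/
def Fs (H : Set (ℝ × ℝ)) (L n t : ℕ) : Set (ℕ → Bool) :=
  {w | ∃ u ∈ YH H, ∃ i, Fam H u L i n t ∧ w = W u i n}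

lemma Fs_sub (H : Set (ℝ × ℝ)) (L n t : ℕ) : Fs H L n t ⊆ Lg (YH H) n := by
  rintro _ ⟨u, hu, i, _, rfl⟩; exact ⟨u, hu, i, rfl⟩

lemma Fs_finite (H : Set (ℝ × ℝ)) (L n t : ℕ) : (Fs H L n t).Finite :=
  (Lg_finite _ _).subset (Fs_sub H L n t)

lemma Bd_finite (H : Set (ℝ × ℝ)) (c : ℕ) : (Bd H c).Finite :=
  (PW_finite (2*c)).subset (by rintro _ ⟨u, _, i, _, rfl⟩; exact W_mem_PW _ _ _)

/-- the index set of the recursion -/
def Pr (L n t : ℕ) : Finset (ℕ × ℕ) :=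
  ((Finset.range (n+1)) ×ˢ (Finset.Ico L (n+1))).filter (fun p => p.1 + 2*p.2 ≤ n ∧ 2*p.2 ≤ t)

lemma Fs_rec (H : Set (ℝ × ℝ)) {L n t : ℕ} (ht : 0 < t) :
    (Fs H L n t).ncard ≤ ∑ p ∈ Pr L n t, Nw H p.1 * ((Bd H p.2).ncard *
      (Fs H L (n - p.1 - 2*p.2) (t - 2*p.2)).ncard) := by
  classical
  let G : ℕ × ℕ → Set (ℕ → Bool) := fun p =>
    (fun x : (ℕ → Bool) × (ℕ → Bool) × (ℕ → Bool) => cat p.1 x.1 (cat (2*p.2) x.2.1 x.2.2)) ''
      (Lg (YH H) p.1 ×ˢ (Bd H p.2 ×ˢ Fs H L (n - p.1 - 2*p.2) (t - 2*p.2)))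
  have hGf : ∀ p : ℕ × ℕ, (Lg (YH H) p.1 ×ˢ (Bd H p.2 ×ˢ Fs H L (n - p.1 - 2*p.2) (t - 2*p.2))).Finite :=
    fun p => (Lg_finite _ _).prod ((Bd_finite _ _).prod (Fs_finite _ _ _ _))
  have hsub : Fs H L n t ⊆ ⋃ p ∈ Pr L n t, G p := by
    rintro _ ⟨u, hu, i, hF, rfl⟩
    cases hF with
    | nil => omega
    | cons _ j g c n' _ t' _ hc hj hb hn ht' hr =>
      rw [Set.mem_iUnion₂]
      refine ⟨(g, c), ?_, ?_⟩
      · simp only [Pr, Finset.mem_filter, Finset.mem_product, Finset.mem_range, Finset.mem_Ico]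
        omega
      · refine ⟨(W u i g, W u (j - c) (2*c), W u (j + c) n'), ⟨⟨u, hu, i, rfl⟩,
          ⟨u, hu, j, hb, rfl⟩, ⟨u, hu, j + c, ?_, ?_⟩⟩, ?_⟩
        · have e1 : n - g - 2*c = n' := by omega
          have e2 : t - 2*c = t' := by omega
          simp only [e1, e2]
          exact hr
        · have e1 : n - g - 2*c = n' := by omega
          simp only [e1]
        · simp only
          rw [hn, add_assoc, W_add u i g (2*c + n'), W_add]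
          congr 2
          · congr 1; rw [hj]; ring
          · congr 1; rw [hj]; push_cast; ring
  have hfin : (⋃ p ∈ Pr L n t, G p).Finite :=
    Set.Finite.biUnion (Finset.finite_toSet _) (fun p _ => (hGf p).image _)
  refine (Set.ncard_le_ncard hsub hfin).trans ?_
  refine (Finset.set_ncard_biUnion_le _ _).trans ?_
  refine Finset.sum_le_sum (fun p _ => ?_)
  refine (Set.ncard_image_le (hGf p)).trans ?_
  rw [Set.ncard_prod, Set.ncard_prod]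
  rfl

lemma Fs_bound (H : Set (ℝ × ℝ)) {L : ℕ} (hL : 1 ≤ L) {C1 C2 h ε κ κ' β : ℝ} (hC1 : 0 ≤ C1) (hC2 : 0 ≤ C2)
    (hε : 0 ≤ ε) (hβ : β = κ - 2*κ')
    (hN : ∀ n : ℕ, (Nw H n : ℝ) ≤ C1 * Real.exp ((h + ε) * n))
    (hs : ∀ c : ℕ, ((Bd H c).ncard : ℝ) ≤ C2 * Real.exp ((2*h - κ) * c))
    (hsum : ∀ n : ℕ, C1 * C2 * ∑ p ∈ (Finset.range (n+1)) ×ˢ (Finset.Ico L (n+1)),
      Real.exp (-ε * p.1) * Real.exp (-β * p.2) ≤ 1) :
    ∀ n t : ℕ, ((Fs H L n t).ncard : ℝ) ≤ C1 * Real.exp ((h + 2*ε) * n - κ' * t) := by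
  intro n
  induction n using Nat.strong_induction_on with
  | _ n ih =>
  intro t
  rcases Nat.eq_zero_or_pos t with ht | ht
  · subst ht
    have h1 : ((Fs H L n 0).ncard : ℝ) ≤ Nw H n := by
      exact_mod_cast Set.ncard_le_ncard (Fs_sub H L n 0) (Lg_finite _ _)
    refine h1.trans ((hN n).trans ?_)
    apply mul_le_mul_of_nonneg_left _ hC1
    apply Real.exp_le_exp.2
    have : 0 ≤ ε * n := by positivity
    push_cast; nlinarith
  have h1 : ((Fs H L n t).ncard : ℝ) ≤ ∑ p ∈ Pr L n t, (Nw H p.1 : ℝ) * ((Bd H p.2).ncard *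
      (Fs H L (n - p.1 - 2*p.2) (t - 2*p.2)).ncard) := by
    exact_mod_cast Fs_rec H ht
  refine h1.trans ?_
  have h2 : ∀ p ∈ Pr L n t, (Nw H p.1 : ℝ) * ((Bd H p.2).ncard *
      (Fs H L (n - p.1 - 2*p.2) (t - 2*p.2)).ncard) ≤
      (C1 * Real.exp ((h + 2*ε) * n - κ' * t)) * (C1 * C2 *
        (Real.exp (-ε * p.1) * Real.exp (-β * p.2))) := by
    intro p hp
    simp only [Pr, Finset.mem_filter, Finset.mem_product, Finset.mem_range, Finset.mem_Ico] at hp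
    obtain ⟨⟨_, hp1⟩, hp2, hp3⟩ := hp
    have h3 := ih (n - p.1 - 2*p.2) (by omega) (t - 2*p.2)
    have h4 := hN p.1
    have h5 := hs p.2
    have h6 : (Nw H p.1 : ℝ) * ((Bd H p.2).ncard *
      (Fs H L (n - p.1 - 2*p.2) (t - 2*p.2)).ncard) ≤
      (C1 * Real.exp ((h + ε) * p.1)) * ((C2 * Real.exp ((2*h - κ) * p.2)) *
        (C1 * Real.exp ((h + 2*ε) * ((n - p.1 - 2*p.2 : ℕ) : ℝ) - κ' * ((t - 2*p.2 : ℕ) : ℝ)))) := by
      gcongr
    refine h6.trans ?_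
    have e1 : ((n - p.1 - 2*p.2 : ℕ) : ℝ) = n - p.1 - 2 * p.2 := by
      rw [Nat.sub_sub, Nat.cast_sub (by omega)]; push_cast; ring
    have e2 : ((t - 2*p.2 : ℕ) : ℝ) = t - 2 * p.2 := by
      rw [Nat.cast_sub (by omega)]; push_cast; ring
    rw [e1, e2]
    have e3 : (C1 * Real.exp ((h + ε) * p.1)) * ((C2 * Real.exp ((2*h - κ) * p.2)) *
        (C1 * Real.exp ((h + 2*ε) * (n - p.1 - 2 * p.2) - κ' * (t - 2 * p.2)))) =
        C1 * (C1 * C2) * Real.exp ((h + ε) * p.1 + (2*h - κ) * p.2 +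
          ((h + 2*ε) * (n - p.1 - 2 * p.2) - κ' * (t - 2 * p.2))) := by
      rw [Real.exp_add, Real.exp_add]; ring
    have e4 : (C1 * Real.exp ((h + 2*ε) * n - κ' * t)) * (C1 * C2 *
        (Real.exp (-ε * p.1) * Real.exp (-β * p.2))) =
        C1 * (C1 * C2) * Real.exp ((h + 2*ε) * n - κ' * t + (-ε * p.1 + -β * p.2)) := by
      rw [Real.exp_add, Real.exp_add]; ring
    rw [e3, e4]
    apply mul_le_mul_of_nonneg_left _ (by positivity)
    apply Real.exp_le_exp.2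
    have : 0 ≤ ε * p.2 := by positivity
    rw [hβ]; nlinarith
  refine (Finset.sum_le_sum h2).trans ?_
  rw [← Finset.mul_sum, ← Finset.mul_sum]
  have h3 : ∑ p ∈ Pr L n t, (Real.exp (-ε * p.1) * Real.exp (-β * p.2)) ≤
      ∑ p ∈ (Finset.range (n+1)) ×ˢ (Finset.Ico L (n+1)),
      Real.exp (-ε * p.1) * Real.exp (-β * p.2) :=
    Finset.sum_le_sum_of_subset_of_nonneg (Finset.filter_subset _ _) (fun _ _ _ => by positivity)
  have h4 : C1 * C2 * ∑ p ∈ Pr L n t, (Real.exp (-ε * p.1) * Real.exp (-β * p.2)) ≤ 1 :=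
    (mul_le_mul_of_nonneg_left h3 (by positivity)).trans (hsum n)
  have h5 : 0 ≤ C1 * Real.exp ((h + 2*ε) * n - κ' * t) := by positivity
  nlinarith

end Pool.Agent.Q67.TR
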