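import Pool.Agent.Q67.TR.Val

/-!
# Counting words near the boundary of a convex hole
-/

namespace Pool.Agent.Q67.TR

open Set

section count
variable {α β γ ι : Type*}

lemma ncard_factor {U : Set α} {f : α → β} {g : α → γ}
    (h : ∀ u ∈ U, ∀ v ∈ U, g u = g v → f u = f v) (hfin : (g '' U).Finite) :
    (f '' U).ncard ≤ (g '' U).ncard := by
  classical
  rcases U.eq_empty_or_nonempty with hU | ⟨u0, hu0⟩
  · simp [hU]
  let φ : γ → β := fun c => if h : ∃ u ∈ U, g u = c then f h.choose else f u0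
  have hsub : f '' U ⊆ φ '' (g '' U) := by
    rintro _ ⟨u, hu, rfl⟩
    refine ⟨g u, ⟨u, hu, rfl⟩, ?_⟩
    have hex : ∃ v ∈ U, g v = g u := ⟨u, hu, rfl⟩
    have : φ (g u) = f hex.choose := dif_pos hex
    rw [this]
    exact h _ hex.choose_spec.1 _ hu hex.choose_spec.2
  exact (Set.ncard_le_ncard hsub (hfin.image _)).trans (Set.ncard_image_le hfin)

lemma image_pre {U : Set α} {F : α → ℕ} {R : ℕ} (h : ∀ u ∈ U, ∀ v ∈ U, F u ≤ F v + R) :
    (F '' U).Finite ∧ (F '' U).ncard ≤ R + 1 := by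
  classical
  rcases U.eq_empty_or_nonempty with hU | hU
  · simp [hU]
  have hne : (F '' U).Nonempty := hU.image F
  obtain ⟨v, hv, hmin⟩ : ∃ v ∈ U, F v = sInf (F '' U) := Nat.sInf_mem hne
  have hsub : F '' U ⊆ ↑(Finset.Icc (F v) (F v + R)) := by
    rintro _ ⟨u, hu, rfl⟩
    rw [Finset.coe_Icc, Set.mem_Icc]
    exact ⟨hmin ▸ Nat.sInf_le ⟨u, hu, rfl⟩, h u hu v hv⟩
  refine ⟨(Finset.finite_toSet _).subset hsub, ?_⟩
  refine (Set.ncard_le_ncard hsub (Finset.finite_toSet _)).trans ?_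
  rw [Set.ncard_coe_finset, Nat.card_Icc]; omega

lemma ncard_fiber {U : Set α} {f : α → β} {g : α → γ} {R : ℕ} (hg : (g '' U).Finite)
    (hf : (f '' U).Finite) (h : ∀ u ∈ U, (f '' {v | v ∈ U ∧ g v = g u}).ncard ≤ R) :
    (f '' U).ncard ≤ R * (g '' U).ncard := by
  classical
  have hsub : f '' U ⊆ ⋃ c ∈ hg.toFinset, f '' {v | v ∈ U ∧ g v = c} := by
    rintro _ ⟨u, hu, rfl⟩
    rw [Set.mem_iUnion₂]
    exact ⟨g u, by simpa using ⟨u, hu, rfl⟩, ⟨u, ⟨hu, rfl⟩, rfl⟩⟩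
  have hfin : (⋃ c ∈ hg.toFinset, f '' {v | v ∈ U ∧ g v = c}).Finite := by
    refine hf.subset ?_
    intro x hx
    rw [Set.mem_iUnion₂] at hx
    obtain ⟨c, _, v, hv, rfl⟩ := hx
    exact ⟨v, hv.1, rfl⟩
  refine (Set.ncard_le_ncard hsub hfin).trans ?_
  refine (Finset.set_ncard_biUnion_le _ _).trans ?_
  have : ∀ c ∈ hg.toFinset, (f '' {v | v ∈ U ∧ g v = c}).ncard ≤ R := by
    intro c hc
    rw [Set.Finite.mem_toFinset] at hc
    obtain ⟨u, hu, rfl⟩ := hc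
    exact h u hu
  refine (Finset.sum_le_card_nsmul _ _ _ this).trans ?_
  rw [smul_eq_mul, Set.ncard_eq_toFinset_card _ hg, mul_comm]

lemma ncard_three {U : Set α} {β₁ β₂ β₃ : Type*} {f : α → β} {g₁ : α → β₁} {g₂ : α → β₂}
    {g₃ : α → β₃} (h : ∀ u ∈ U, ∀ v ∈ U, g₁ u = g₁ v → g₂ u = g₂ v → g₃ u = g₃ v → f u = f v)
    (h1 : (g₁ '' U).Finite) (h2 : (g₂ '' U).Finite) (h3 : (g₃ '' U).Finite) :
    (f '' U).ncard ≤ (g₁ '' U).ncard * ((g₂ '' U).ncard * (g₃ '' U).ncard) := by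
  let g : α → β₁ × β₂ × β₃ := fun u => (g₁ u, g₂ u, g₃ u)
  have hsub : g '' U ⊆ (g₁ '' U) ×ˢ ((g₂ '' U) ×ˢ (g₃ '' U)) := by
    rintro _ ⟨u, hu, rfl⟩
    exact ⟨⟨u, hu, rfl⟩, ⟨u, hu, rfl⟩, ⟨u, hu, rfl⟩⟩
  have hfin : ((g₁ '' U) ×ˢ ((g₂ '' U) ×ˢ (g₃ '' U))).Finite := h1.prod (h2.prod h3)
  have h4 : (f '' U).ncard ≤ (g '' U).ncard := by
    refine ncard_factor (fun u hu v hv huv => ?_) (hfin.subset hsub)
    simp only [g, Prod.mk.injEq] at huv
    exact h u hu v hv huv.1 huv.2.1 huv.2.2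
  refine h4.trans ((Set.ncard_le_ncard hsub hfin).trans ?_)
  rw [Set.ncard_prod, Set.ncard_prod]

end count

/-- horizontal coordinate of the point coded by `u` at time `i` -/
noncomputable def px (u : ℤ → Bool) (i : ℤ) : ℝ := val (fun n => u (i + 1 + n))
/-- vertical coordinate of the point coded by `u` at time `i` -/
noncomputable def py (u : ℤ → Bool) (i : ℤ) : ℝ := val (fun n => u (i - n))

/-- sequences whose orbit avoids `H` -/
def YH (H : Set (ℝ × ℝ)) : Set (ℤ → Bool) := {u | ∀ i, (px u i, py u i) ∉ H}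

/-- words of length `n` of sequences in `Y` -/
def Lg (Y : Set (ℤ → Bool)) (n : ℕ) : Set (ℕ → Bool) := {w | ∃ u ∈ Y, ∃ i, w = W u i n}

lemma Lg_finite (Y : Set (ℤ → Bool)) (n : ℕ) : (Lg Y n).Finite :=
  (PW_finite n).subset (by rintro _ ⟨u, _, i, rfl⟩; exact W_mem_PW u i n)

/-- closeness of the coded point to the hole -/
def near (H : Set (ℝ × ℝ)) (u : ℤ → Bool) (i : ℤ) (c : ℕ) : Prop :=
  ∃ q ∈ closure H, |px u i - q.1| ≤ (1/2:ℝ)^c ∧ |py u i - q.2| ≤ (1/2:ℝ)^c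

/-- constant block -/
def cst (u : ℤ → Bool) (i : ℤ) (c : ℕ) : Prop := ∀ j, i - c < j → j ≤ i + c → u j = u i

/-- bad block -/
def bad (H : Set (ℝ × ℝ)) (u : ℤ → Bool) (i : ℤ) (c : ℕ) : Prop := near H u i c ∨ cst u i c

lemma bad_mono {H : Set (ℝ × ℝ)} {u : ℤ → Bool} {i : ℤ} {c d : ℕ} (hdc : d ≤ c)
    (h : bad H u i c) : bad H u i d := by
  rcases h with ⟨q, hq, h1, h2⟩ | h
  · left
    have : (1/2:ℝ)^c ≤ (1/2:ℝ)^d := pow_le_pow_of_le_one (by norm_num) (by norm_num) hdc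
    exact ⟨q, hq, h1.trans this, h2.trans this⟩
  · right
    intro j h1 h2
    exact h j (by omega) (by omega)

/-- bad words -/
def Bd (H : Set (ℝ × ℝ)) (c : ℕ) : Set (ℕ → Bool) :=
  {w | ∃ u ∈ YH H, ∃ i, bad H u i c ∧ w = W u (i - c) (2*c)}

lemma near_H {H : Set (ℝ × ℝ)} {u : ℤ → Bool} {i : ℤ} {c : ℕ} (h : near H u i c) :
    ∃ q ∈ H, |px u i - q.1| ≤ 2 * (1/2:ℝ)^c ∧ |py u i - q.2| ≤ 2 * (1/2:ℝ)^c := by
  obtain ⟨q, hq, h1, h2⟩ := h
  rw [Metric.mem_closure_iff] at hq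
  obtain ⟨q', hq', hd⟩ := hq ((1/2:ℝ)^c) (by positivity)
  rw [Prod.dist_eq, max_lt_iff, Real.dist_eq, Real.dist_eq] at hd
  refine ⟨q', hq', ?_, ?_⟩
  · rw [abs_le] at *
    have h3 := abs_lt.1 hd.1
    constructor <;> linarith [h1.1, h1.2, h3.1, h3.2]
  · rw [abs_le] at *
    have h3 := abs_lt.1 hd.2
    constructor <;> linarith [h2.1, h2.2, h3.1, h3.2]

/-- the convexity lemma -/
lemma conv_slide {H : Set (ℝ × ℝ)} (hc : Convex ℝ H) (hX : H ⊆ Icc 0 1 ×ˢ Icc 0 1)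
    {σ : ℝ} (hσ : σ = 1 ∨ σ = -1) {x y x' y' δ ρ : ℝ} (hδ : 0 < δ) (hρ : 0 < ρ)
    (hp' : (x', y') ∉ H) (hyy : |y - y'| ≤ δ) {q : ℝ × ℝ} (hq : q ∈ H)
    (hq1 : |x - q.1| ≤ 2 * δ) (hq2 : |y - q.2| ≤ 2 * δ)
    {T T' : ℝ × ℝ} (hT : T ∈ H) (hT2 : y' + ρ ≤ T.2) (hT' : T' ∈ H) (hT'2 : T'.2 ≤ y' - ρ)
    {z : ℝ × ℝ} (hz : z ∈ H) (hz2 : z.2 = y') (hz1 : σ * x' < σ * z.1) :
    σ * x' ≤ σ * x + 2 * δ + 3 * δ / ρ := by
  have key : ∃ z0 ∈ H, z0.2 = y' ∧ σ * z0.1 ≤ σ * q.1 + 3 * δ / ρ := by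
    have aux : ∀ T ∈ H, ρ ≤ |T.2 - q.2| → 0 ≤ (y' - q.2) / (T.2 - q.2) →
        (y' - q.2) / (T.2 - q.2) ≤ 1 → T.2 - q.2 ≠ 0 →
        ∃ z0 ∈ H, z0.2 = y' ∧ σ * z0.1 ≤ σ * q.1 + 3 * δ / ρ := by
      intro T hT hρT h0 h1 hne
      set l := (y' - q.2) / (T.2 - q.2) with hl
      refine ⟨(1 - l) • q + l • T, hc hq hT (by linarith) h0 (by ring), ?_, ?_⟩
      · simp only [Prod.snd_add, Prod.smul_snd, smul_eq_mul]
        have : l * (T.2 - q.2) = y' - q.2 := by rw [hl]; field_simp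
        linarith
      · simp only [Prod.fst_add, Prod.smul_fst, smul_eq_mul]
        have hl1 : l ≤ 3 * δ / ρ := by
          have h5 : |y' - q.2| ≤ 3 * δ := by
            rw [abs_le] at *
            constructor <;> linarith [hq2.1, hq2.2, hyy.1, hyy.2]
          have h6 : l = |y' - q.2| / |T.2 - q.2| := by
            rw [← abs_div, abs_of_nonneg h0]
          rw [h6]
          exact div_le_div₀ (by positivity) h5 hρ hρT
        have hTX := hX hT
        have hqX := hX hq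
        simp only [Set.mem_prod, Set.mem_Icc] at hTX hqX
        have h7 : σ * (T.1 - q.1) ≤ 1 := by
          rcases hσ with rfl | rfl
          · linarith [hTX.1.2, hqX.1.1]
          · linarith [hTX.1.1, hqX.1.2]
        have h8 : l * (σ * (T.1 - q.1)) ≤ l * 1 := mul_le_mul_of_nonneg_left h7 h0
        nlinarith
    rcases le_total q.2 y' with h | h
    · have hpos : 0 < T.2 - q.2 := by linarith
      refine aux T hT ?_ ?_ ?_ hpos.ne'
      · rw [abs_of_pos hpos]; linarith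
      · exact div_nonneg (by linarith) hpos.le
      · rw [div_le_one hpos]; linarith
    · have hneg : T'.2 - q.2 < 0 := by linarith
      refine aux T' hT' ?_ ?_ ?_ hneg.ne
      · rw [abs_of_neg hneg]; linarith
      · exact div_nonneg_of_nonpos (by linarith) hneg.le
      · rw [div_le_one_of_neg hneg]; linarith
  obtain ⟨z0, hz0, hz02, hz01⟩ := key
  have h1 : σ * x' ≤ σ * z0.1 := by
    by_contra hlt
    push Not at hlt
    apply hp'
    have hpos : 0 < σ * (z.1 - z0.1) := by linarith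
    have hne : z.1 - z0.1 ≠ 0 := by
      intro h; rw [h] at hpos; simp at hpos
    have hσ0 : σ * σ = 1 := by rcases hσ with rfl | rfl <;> norm_num
    set l := (σ * (x' - z0.1)) / (σ * (z.1 - z0.1)) with hl
    have hl0 : 0 ≤ l := div_nonneg (by linarith) hpos.le
    have hl1 : l ≤ 1 := by rw [hl, div_le_one hpos]; linarith
    have h2 : (1 - l) • z0 + l • z = (x', y') := by
      ext
      · simp only [Prod.fst_add, Prod.smul_fst, smul_eq_mul]
        have h3 : l * (σ * (z.1 - z0.1)) = σ * (x' - z0.1) := by rw [hl]; field_simp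
        have h4 : l * (z.1 - z0.1) = x' - z0.1 := by
          calc l * (z.1 - z0.1) = (σ * σ) * (l * (z.1 - z0.1)) := by rw [hσ0]; ring
            _ = σ * (l * (σ * (z.1 - z0.1))) := by ring
            _ = σ * (σ * (x' - z0.1)) := by rw [h3]
            _ = (σ * σ) * (x' - z0.1) := by ring
            _ = x' - z0.1 := by rw [hσ0]; ring
        linarith
      · simp only [Prod.snd_add, Prod.smul_snd, smul_eq_mul]
        rw [hz02, hz2]; ring
    rw [← h2]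
    exact hc hz0 hz (by linarith) hl0 (by ring)
  have h2 : σ * q.1 ≤ σ * x + 2 * δ := by
    rw [abs_le] at hq1
    rcases hσ with rfl | rfl
    · linarith [hq1.1]
    · linarith [hq1.2]
  linarith

end Pool.Agent.Q67.TR
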