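import Mathlib

/-!
# Binary expansions, prefixes, and words of two-sided sequences
-/

namespace Pool.Agent.Q67.TR

open Set

/-- the value `∑ a_n 2^{-(n+1)}` of a one-sided digit sequence -/
noncomputable def val (a : ℕ → Bool) : ℝ := ∑' n, (if a n then (1:ℝ) else 0) * (1/2)^(n+1)

lemma summable_geom : Summable (fun n : ℕ => ((1:ℝ)/2)^(n+1)) :=
  (summable_geometric_two).mul_left (1/2) |>.congr (fun n => by ring)

lemma tsum_geom : ∑' n : ℕ, ((1:ℝ)/2)^(n+1) = 1 := by
  have h : (fun n : ℕ => ((1:ℝ)/2)^(n+1)) = fun n => (1/2) * (1/2:ℝ)^n := by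
    ext n; ring
  rw [h, tsum_mul_left, tsum_geometric_two]; norm_num

lemma summable_val (a : ℕ → Bool) :
    Summable fun n => (if a n then (1:ℝ) else 0) * (1/2)^(n+1) := by
  refine Summable.of_nonneg_of_le (fun n => ?_) (fun n => ?_) summable_geom
  · positivity
  · have : (0:ℝ) ≤ (1/2)^(n+1) := by positivity
    split_ifs <;> simp

lemma val_nonneg (a : ℕ → Bool) : 0 ≤ val a :=
  tsum_nonneg (fun n => by positivity)

lemma val_le_one (a : ℕ → Bool) : val a ≤ 1 := by
  rw [← tsum_geom]
  refine (summable_val a).tsum_le_tsum (fun n => ?_) summable_geom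
  have : (0:ℝ) ≤ (1/2)^(n+1) := by positivity
  split_ifs <;> simp

lemma val_succ (a : ℕ → Bool) :
    val a = ((if a 0 then (1:ℝ) else 0) + val (fun n => a (n+1)))/2 := by
  unfold val
  rw [(summable_val a).tsum_eq_zero_add]
  have : (fun n => (if a (n+1) then (1:ℝ) else 0) * (1/2)^(n+1+1)) =
      fun n => (1/2) * ((if a (n+1) then (1:ℝ) else 0) * (1/2)^(n+1)) := by
    ext n; ring
  rw [this, tsum_mul_left]; ring

/-- the integer formed by the first `c` digits -/
def pre (a : ℕ → Bool) : ℕ → ℕ
  | 0 => 0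
  | c+1 => 2 * pre a c + (a c).toNat

lemma val_pre (a : ℕ → Bool) (c : ℕ) :
    val a * 2^c = pre a c + val (fun n => a (n+c)) := by
  induction c with
  | zero => simp [pre]
  | succ c ih =>
    have h1 := val_succ (fun n => a (n+c))
    have h2 : (fun n => a (n + 1 + c)) = fun n => a (n + (c+1)) := by
      ext n; congr 1; ring
    simp only [h2, Nat.zero_add] at h1
    rw [pow_succ, ← mul_assoc, ih, h1, pre]
    rcases h : a c <;> simp <;> ring

lemma pre_inj {a b : ℕ → Bool} {c : ℕ} (h : pre a c = pre b c) : ∀ n < c, a n = b n := by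
  induction c with
  | zero => intro n hn; omega
  | succ c ih =>
    simp only [pre] at h
    have ha : (a c).toNat ≤ 1 := Bool.toNat_le _
    have hb : (b c).toNat ≤ 1 := Bool.toNat_le _
    have h1 : pre a c = pre b c := by omega
    have h2 : (a c).toNat = (b c).toNat := by omega
    intro n hn
    rcases Nat.lt_succ_iff_lt_or_eq.1 hn with h3 | h3
    · exact ih h1 n h3
    · subst h3
      rcases hx : a n <;> rcases hy : b n <;> simp_all

lemma pre_congr {a b : ℕ → Bool} {c : ℕ} (h : ∀ n < c, a n = b n) : pre a c = pre b c := by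
  induction c with
  | zero => rfl
  | succ c ih =>
    simp only [pre]
    rw [ih (fun n hn => h n (by omega)), h c (by omega)]

lemma val_close {a b : ℕ → Bool} {c : ℕ} (h : ∀ n < c, a n = b n) :
    |val a - val b| ≤ (1/2:ℝ)^c := by
  have h1 := val_pre a c
  have h2 := val_pre b c
  rw [pre_congr h] at h1
  have h3 : (val a - val b) * 2^c = val (fun n => a (n+c)) - val (fun n => b (n+c)) := by
    rw [sub_mul, h1, h2]; ring
  have h4 : |(val a - val b) * 2^c| ≤ 1 := by
    rw [h3, abs_le]
    have := val_nonneg (fun n => a (n+c))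
    have := val_nonneg (fun n => b (n+c))
    have := val_le_one (fun n => a (n+c))
    have := val_le_one (fun n => b (n+c))
    constructor <;> linarith
  rw [abs_mul, abs_of_pos (by positivity : (0:ℝ) < 2^c)] at h4
  rw [one_div, inv_pow, ← one_div, le_div_iff₀ (by positivity)]
  exact h4

lemma pre_close {a b : ℕ → Bool} {c : ℕ} {R : ℝ} (h : |val a - val b| * 2^c ≤ R) :
    (pre a c : ℝ) ≤ pre b c + R + 1 := by
  have h1 := val_pre a c
  have h2 := val_pre b c
  have h3 : (val a - val b) * 2^c ≤ R :=
    le_trans (mul_le_mul_of_nonneg_right (le_abs_self _) (by positivity)) h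
  rw [sub_mul, h1, h2] at h3
  have := val_nonneg (fun n => a (n+c))
  have := val_le_one (fun n => b (n+c))
  linarith

/-- the word of length `n` of `u` that starts at position `i+1` (padded by `false`) -/
def W (u : ℤ → Bool) (i : ℤ) (n : ℕ) : ℕ → Bool := fun k => if k < n then u (i + 1 + k) else false

/-- concatenation of padded words -/
def cat (m : ℕ) (w w' : ℕ → Bool) : ℕ → Bool := fun k => if k < m then w k else w' (k - m)

lemma W_add (u : ℤ → Bool) (i : ℤ) (m n : ℕ) :
    W u i (m+n) = cat m (W u i m) (W u (i+m) n) := by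
  ext k
  unfold W cat
  by_cases h1 : k < m
  · simp [h1, show k < m + n by omega]
  · by_cases h2 : k < m + n
    · have h3 : k - m < n := by omega
      have h4 : (i + 1 + (k:ℤ)) = i + m + 1 + ((k - m : ℕ) : ℤ) := by
        push_cast [Nat.cast_sub (not_lt.1 h1)]; ring
      simp [h1, h2, h3, h4]
    · have h3 : ¬ (k - m < n) := by omega
      simp [h1, h2, h3]

lemma W_eq_iff {u v : ℤ → Bool} {i j : ℤ} {n : ℕ} :
    W u i n = W v j n ↔ ∀ k < n, u (i + 1 + k) = v (j + 1 + k) := by
  constructor
  · intro h k hk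
    have := congrFun h k
    simpa [W, hk] using this
  · intro h
    ext k
    unfold W
    split_ifs with hk
    · exact h k hk
    · rfl

/-- the finite set of all padded words of length `n` -/
def PW (n : ℕ) : Set (ℕ → Bool) :=
  Set.range (fun f : Fin n → Bool => fun k => if h : k < n then f ⟨k, h⟩ else false)

lemma PW_finite (n : ℕ) : (PW n).Finite := Set.finite_range _

lemma W_mem_PW (u : ℤ → Bool) (i : ℤ) (n : ℕ) : W u i n ∈ PW n := by
  refine ⟨fun k => u (i + 1 + (k:ℕ)), ?_⟩
  ext k
  by_cases h : k < n <;> simp [W, h]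

end Pool.Agent.Q67.TR
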