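import Pool.Agent.Q67.TR.Ent

/-!
# Zero entropy of the survivors of a cycle trap: the exponential rate
-/

namespace Pool.Agent.Q67.TR

open Set Filter Topology

lemma Nw_add (H : Set (ℝ × ℝ)) (m n : ℕ) : Nw H (m+n) ≤ Nw H m * Nw H n := by
  have hsub : Lg (YH H) (m+n) ⊆ (fun x : (ℕ → Bool) × (ℕ → Bool) => cat m x.1 x.2) ''
      (Lg (YH H) m ×ˢ Lg (YH H) n) := by
    rintro _ ⟨u, hu, i, rfl⟩
    exact ⟨(W u i m, W u (i+m) n), ⟨⟨u, hu, i, rfl⟩, ⟨u, hu, i+m, rfl⟩⟩, (W_add u i m n).symm⟩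
  have hfin := (Lg_finite (YH H) m).prod (Lg_finite (YH H) n)
  refine (Set.ncard_le_ncard hsub (hfin.image _)).trans ((Set.ncard_image_le hfin).trans ?_)
  rw [Set.ncard_prod]; rfl

lemma Nw_pos {H : Set (ℝ × ℝ)} (hne : (YH H).Nonempty) (n : ℕ) : 1 ≤ Nw H n := by
  obtain ⟨u, hu⟩ := hne
  have : 0 < Nw H n := by
    unfold Nw
    rw [Set.ncard_pos (Lg_finite _ _)]
    exact ⟨_, u, hu, 0, rfl⟩
  omega

lemma subadd {H : Set (ℝ × ℝ)} (hne : (YH H).Nonempty) :
    Subadditive (fun n => Real.log (Nw H n)) := by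
  intro m n
  have h1 : (1:ℝ) ≤ Nw H m := by exact_mod_cast Nw_pos hne m
  have h2 : (1:ℝ) ≤ Nw H n := by exact_mod_cast Nw_pos hne n
  have h3 : (1:ℝ) ≤ Nw H (m+n) := by exact_mod_cast Nw_pos hne (m+n)
  have h4 : (Nw H (m+n) : ℝ) ≤ Nw H m * Nw H n := by exact_mod_cast Nw_add H m n
  rw [← Real.log_mul (by linarith) (by linarith)]
  exact Real.log_le_log (by linarith) h4

lemma bdd {H : Set (ℝ × ℝ)} (hne : (YH H).Nonempty) :
    BddBelow (range fun n : ℕ => Real.log (Nw H n) / n) := by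
  refine ⟨0, ?_⟩
  rintro _ ⟨n, rfl⟩
  have h1 : (1:ℝ) ≤ Nw H n := by exact_mod_cast Nw_pos hne n
  exact div_nonneg (Real.log_nonneg h1) (by positivity)

lemma Nw_lower {H : Set (ℝ × ℝ)} (hne : (YH H).Nonempty) (n : ℕ) :
    Real.exp ((subadd hne).lim * n) ≤ Nw H n := by
  have h1 : (1:ℝ) ≤ Nw H n := by exact_mod_cast Nw_pos hne n
  rcases Nat.eq_zero_or_pos n with h | h
  · subst h; simpa using h1
  have h2 := (subadd hne).lim_le_div (bdd hne) h.ne'
  rw [le_div_iff₀ (by exact_mod_cast h)] at h2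
  calc Real.exp ((subadd hne).lim * n) ≤ Real.exp (Real.log (Nw H n)) := Real.exp_le_exp.2 h2
    _ = Nw H n := Real.exp_log (by linarith)

lemma Nw_upper {H : Set (ℝ × ℝ)} (hne : (YH H).Nonempty) {ε : ℝ} (hε : 0 < ε) :
    ∃ C : ℝ, 0 < C ∧ ∀ n : ℕ, (Nw H n : ℝ) ≤ C * Real.exp (((subadd hne).lim + ε) * n) := by
  have ht := (subadd hne).tendsto_lim (bdd hne)
  have hev : ∀ᶠ n : ℕ in atTop, Real.log (Nw H n) / n < (subadd hne).lim + ε :=
    ht.eventually (gt_mem_nhds (by linarith))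
  obtain ⟨n0, hn0⟩ := eventually_atTop.1 hev
  have hlim0 : 0 ≤ (subadd hne).lim := by
    refine ge_of_tendsto ht (Eventually.of_forall (fun n => ?_))
    have h1 : (1:ℝ) ≤ Nw H n := by exact_mod_cast Nw_pos hne n
    exact div_nonneg (Real.log_nonneg h1) (by positivity)
  refine ⟨1 + ∑ n ∈ Finset.range (n0+1), (Nw H n : ℝ), by positivity, fun n => ?_⟩
  have hS : (0:ℝ) ≤ ∑ n ∈ Finset.range (n0+1), (Nw H n : ℝ) := by positivity
  have hexp : 1 ≤ Real.exp (((subadd hne).lim + ε) * n) :=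
    Real.one_le_exp (by positivity)
  by_cases hn : n < n0 + 1
  · have h1 : (Nw H n : ℝ) ≤ ∑ n ∈ Finset.range (n0+1), (Nw H n : ℝ) :=
      Finset.single_le_sum (f := fun n => (Nw H n : ℝ)) (fun _ _ => by positivity)
        (Finset.mem_range.2 hn)
    nlinarith
  · have h1 := hn0 n (by omega)
    have hnpos : (0:ℝ) < n := by exact_mod_cast (by omega : 0 < n)
    rw [div_lt_iff₀ hnpos] at h1
    have h2 : (1:ℝ) ≤ Nw H n := by exact_mod_cast Nw_pos hne n
    have h3 : (Nw H n : ℝ) ≤ Real.exp (((subadd hne).lim + ε) * n) := by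
      calc (Nw H n : ℝ) = Real.exp (Real.log (Nw H n)) := (Real.exp_log (by linarith)).symm
        _ ≤ _ := Real.exp_le_exp.2 h1.le
    nlinarith

/-- exponentially few bad words -/
lemma Bd_upper {H : Set (ℝ × ℝ)} (hc : Convex ℝ H) (hX : H ⊆ Icc 0 1 ×ˢ Icc 0 1)
    (hne : (YH H).Nonempty) (hpos : 0 < (subadd hne).lim) :
    ∃ κ : ℝ, 0 < κ ∧ ∃ C : ℝ, 0 < C ∧ ∀ c : ℕ,
      ((Bd H c).ncard : ℝ) ≤ C * Real.exp ((2 * (subadd hne).lim - κ) * c) := by
  set h := (subadd hne).lim with hh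
  obtain ⟨K, hK⟩ := exists_nat_ge (4 / h + 1)
  have hK1 : (1:ℝ) ≤ K := by
    have : 0 < 4 / h := by positivity
    linarith
  have hK4 : 4 ≤ K * h := by
    have : 4 / h ≤ K := by linarith
    rwa [div_le_iff₀ hpos] at this
  have hK0 : (0:ℝ) < K := by linarith
  have hKn : 0 < K := by exact_mod_cast hK0
  obtain ⟨C, hC, hN⟩ := Nw_upper hne (ε := h / (4*K)) (by positivity)
  rw [← hh] at hN
  refine ⟨h / (2*K), by positivity, 10 * C^2 * Real.exp h + 14 * C + 2, by positivity, fun c => ?_⟩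
  set k := c / K with hk
  have hkc : k ≤ c := Nat.div_le_self c K
  have hb : ((Bd H c).ncard : ℝ) ≤ 2 * ((Nw H (c-k)) * (5 * (Nw H c))) +
      2 * ((5 * 2^k + 2) * (Nw H c)) + 2 := by
    exact_mod_cast count_Bd hc hX hkc
  have hk1 : (k:ℝ) * K ≤ c := by exact_mod_cast Nat.div_mul_le_self c K
  have hk2 : (c:ℝ) < (k + 1) * K := by
    have : c < (k + 1) * K := by
      have h1 := Nat.div_add_mod c K
      have h2 := Nat.mod_lt c hKn
      rw [hk]; nlinarith
    exact_mod_cast this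
  have hk3 : (c:ℝ) / K - 1 ≤ k := by
    rw [div_sub_one hK0.ne', div_le_iff₀ hK0]; linarith
  have hk4 : (k:ℝ) ≤ c / K := by rw [le_div_iff₀ hK0]; exact hk1
  have hc0 : (0:ℝ) ≤ c := by positivity
  have hk0 : (0:ℝ) ≤ k := by positivity
  -- flat part
  have hflat : (Nw H (c-k) : ℝ) * (5 * (Nw H c)) ≤ 5 * C^2 * Real.exp h *
      Real.exp ((2 * h - h / (2*K)) * c) := by
    have h1 := hN (c-k)
    have h2 := hN c
    have h3 : (Nw H (c-k) : ℝ) * (5 * (Nw H c)) ≤
        (C * Real.exp ((h + h / (4*K)) * ((c - k : ℕ) : ℝ))) *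
          (5 * (C * Real.exp ((h + h / (4*K)) * c))) := by gcongr
    refine h3.trans ?_
    rw [Nat.cast_sub hkc]
    have e : (C * Real.exp ((h + h / (4*K)) * ((c:ℝ) - k))) *
          (5 * (C * Real.exp ((h + h / (4*K)) * c))) =
        5 * C^2 * Real.exp ((h + h / (4*K)) * ((c:ℝ) - k) + (h + h / (4*K)) * c) := by
      rw [Real.exp_add]; ring
    rw [e, mul_assoc (5 * C^2), ← Real.exp_add]
    apply mul_le_mul_of_nonneg_left _ (by positivity)
    apply Real.exp_le_exp.2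
    have e1 : h / (4*K) = (h / K) / 4 := by field_simp
    have e2 : h / (2*K) = (h / K) / 2 := by field_simp
    have e3 : h * (c / K) = (h / K) * c := by field_simp
    rw [e1, e2]
    have h4 : h * (c / K - 1) ≤ h * k := mul_le_mul_of_nonneg_left hk3 hpos.le
    have h5 : 0 ≤ (h / K) / 4 * k := by positivity
    nlinarith
  have hsteep : (5 * 2^k + 2) * (Nw H c : ℝ) ≤ 7 * C * Real.exp ((2 * h - h / (2*K)) * c) := by
    have h1 : (1:ℝ) ≤ 2^k := one_le_pow₀ (by norm_num)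
    have h2 : (2:ℝ)^k ≤ Real.exp (c / K) := by
      calc (2:ℝ)^k ≤ (Real.exp 1)^k := by
            apply pow_le_pow_left₀ (by norm_num)
            have := Real.add_one_le_exp (1:ℝ)
            linarith
        _ = Real.exp k := by rw [← Real.exp_nat_mul]; simp
        _ ≤ _ := Real.exp_le_exp.2 hk4
    have h3 := hN c
    have h4 : (5 * 2^k + 2) * (Nw H c : ℝ) ≤ (7 * Real.exp (c / K)) *
        (C * Real.exp ((h + h / (4*K)) * c)) := by
      apply mul_le_mul (by linarith) h3 (by positivity) (by positivity)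
    refine h4.trans ?_
    have e : (7 * Real.exp (c / K)) * (C * Real.exp ((h + h / (4*K)) * c)) =
        7 * C * Real.exp (c / K + (h + h / (4*K)) * c) := by
      rw [Real.exp_add]; ring
    rw [e]
    apply mul_le_mul_of_nonneg_left _ (by positivity)
    apply Real.exp_le_exp.2
    have e0 : (c:ℝ) / K = (1 / K) * c := by field_simp
    have e1 : h / (4*K) = (h / K) / 4 := by field_simp
    have e2 : h / (2*K) = (h / K) / 2 := by field_simp
    rw [e0, e1, e2]
    have h5 : 1 / K ≤ h / 4 := by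
      rw [div_le_iff₀ hK0]; linarith
    have h6 : h / K ≤ h := by
      rw [div_le_iff₀ hK0]; nlinarith
    have h7 : (1 / K + (h + h / K / 4)) * c ≤ (2 * h - h / K / 2) * c := by
      apply mul_le_mul_of_nonneg_right _ hc0
      linarith
    linarith
  have hconst : (1:ℝ) ≤ Real.exp ((2 * h - h / (2*K)) * c) := by
    apply Real.one_le_exp
    have : h / (2*K) ≤ h := by
      rw [div_le_iff₀ (by positivity)]; nlinarith
    apply mul_nonneg _ hc0
    linarith
  calc ((Bd H c).ncard : ℝ) ≤ _ := hb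
    _ ≤ 2 * (5 * C^2 * Real.exp h * Real.exp ((2 * h - h / (2*K)) * c)) +
        2 * (7 * C * Real.exp ((2 * h - h / (2*K)) * c)) +
        2 * Real.exp ((2 * h - h / (2*K)) * c) := by linarith
    _ = _ := by ring

lemma Fam_le {H : Set (ℝ × ℝ)} {u : ℤ → Bool} {L : ℕ} {i : ℤ} {n t : ℕ}
    (h : Fam H u L i n t) : t ≤ n := by
  induction h with
  | nil => omega
  | cons => omega

lemma sum_exp_le {a : ℝ} (ha : 0 < a) (s : Finset ℕ) :
    ∑ g ∈ s, Real.exp (-a * g) ≤ (1 - Real.exp (-a))⁻¹ := by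
  have h1 : Real.exp (-a) < 1 := Real.exp_lt_one_iff.2 (by linarith)
  have h0 : 0 ≤ Real.exp (-a) := (Real.exp_pos _).le
  have h2 : ∀ g : ℕ, Real.exp (-a * g) = (Real.exp (-a))^g := by
    intro g; rw [← Real.exp_nat_mul]; congr 1; ring
  simp_rw [h2]
  rw [← tsum_geometric_of_lt_one h0 h1]
  exact (summable_geometric_of_lt_one h0 h1).sum_le_tsum s (fun _ _ => by positivity)

lemma sum_exp_tail {b : ℝ} (hb : 0 < b) (L n : ℕ) :
    ∑ c ∈ Finset.Ico L n, Real.exp (-b * c) ≤ Real.exp (-b * L) * (1 - Real.exp (-b))⁻¹ := by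
  rw [Finset.sum_Ico_eq_sum_range]
  have : ∀ k : ℕ, Real.exp (-b * ((L + k : ℕ) : ℝ)) = Real.exp (-b * L) * Real.exp (-b * k) := by
    intro k; rw [← Real.exp_add]; congr 1; push_cast; ring
  simp_rw [this]
  rw [← Finset.mul_sum]
  exact mul_le_mul_of_nonneg_left (sum_exp_le hb _) (Real.exp_pos _).le

/-- **zero entropy** -/
theorem lim_eq_zero {H : Set (ℝ × ℝ)} (hc : Convex ℝ H) (hX : H ⊆ Icc 0 1 ×ˢ Icc 0 1)
    (htrap : Trap H) (hne : (YH H).Nonempty) : (subadd hne).lim = 0 := by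
  have ht := (subadd hne).tendsto_lim (bdd hne)
  have hlim0 : 0 ≤ (subadd hne).lim := by
    refine ge_of_tendsto ht (Eventually.of_forall (fun n => ?_))
    have h1 : (1:ℝ) ≤ Nw H n := by exact_mod_cast Nw_pos hne n
    exact div_nonneg (Real.log_nonneg h1) (by positivity)
  by_contra hcon
  have hpos : 0 < (subadd hne).lim := lt_of_le_of_ne hlim0 (Ne.symm hcon)
  obtain ⟨κ, hκ, C2, hC2, hs⟩ := Bd_upper hc hX hne hpos
  set h := (subadd hne).lim with hh
  obtain ⟨C1, hC1, hN⟩ := Nw_upper hne (ε := κ / 256) (by positivity)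
  rw [← hh] at hN
  have ha : 0 < κ / 256 := by positivity
  have hb : 0 < κ / 2 := by positivity
  -- choice of `L`
  obtain ⟨A, hA⟩ : ∃ A, A = C1 * C2 * ((1 - Real.exp (-(κ/256)))⁻¹ * (1 - Real.exp (-(κ/2)))⁻¹) :=
    ⟨_, rfl⟩
  have htend : Tendsto (fun L : ℕ => A * Real.exp (-(κ/2) * L)) atTop (𝓝 (A * 0)) := by
    apply Tendsto.const_mul
    apply Real.tendsto_exp_atBot.comp
    apply Tendsto.const_mul_atTop_of_neg (by linarith)
    exact tendsto_natCast_atTop_atTop
  rw [mul_zero] at htend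
  obtain ⟨L, hLA, hL⟩ := ((htend.eventually (gt_mem_nhds (zero_lt_one))).and
    (eventually_ge_atTop 1)).exists
  have hsum : ∀ n : ℕ, C1 * C2 * ∑ p ∈ (Finset.range (n+1)) ×ˢ (Finset.Ico L (n+1)),
      Real.exp (-(κ/256) * p.1) * Real.exp (-(κ/2) * p.2) ≤ 1 := by
    intro n
    rw [Finset.sum_product]
    simp only
    rw [← Finset.sum_mul_sum]
    have h1 := sum_exp_le ha (Finset.range (n+1))
    have h2 := sum_exp_tail hb L (n+1)
    have h3 : (0:ℝ) < (1 - Real.exp (-(κ/256)))⁻¹ := by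
      rw [inv_pos, sub_pos]; exact Real.exp_lt_one_iff.2 (by linarith)
    have h4 : (∑ g ∈ Finset.range (n+1), Real.exp (-(κ/256) * g)) *
        (∑ c ∈ Finset.Ico L (n+1), Real.exp (-(κ/2) * c)) ≤
        (1 - Real.exp (-(κ/256)))⁻¹ * (Real.exp (-(κ/2) * L) * (1 - Real.exp (-(κ/2)))⁻¹) :=
      mul_le_mul h1 h2 (by positivity) h3.le
    calc C1 * C2 * ((∑ g ∈ Finset.range (n+1), Real.exp (-(κ/256) * g)) *
        (∑ c ∈ Finset.Ico L (n+1), Real.exp (-(κ/2) * c)))
        ≤ C1 * C2 * ((1 - Real.exp (-(κ/256)))⁻¹ * (Real.exp (-(κ/2) * L) *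
          (1 - Real.exp (-(κ/2)))⁻¹)) := mul_le_mul_of_nonneg_left h4 (by positivity)
      _ = A * Real.exp (-(κ/2) * L) := by rw [hA]; ring
      _ ≤ 1 := hLA.le
  have hF := Fs_bound H hL (C1 := C1) (C2 := C2) (h := h) (ε := κ/256) (κ := κ) (κ' := κ/4)
    (β := κ/2) hC1.le hC2.le ha.le (by ring) hN hs hsum
  -- the final comparison
  obtain ⟨KL, hKL⟩ : ∃ KL, KL = (PW (2*L)).ncard := ⟨_, rfl⟩
  have hmain : ∀ N : ℕ, 16 * L ≤ N → (1:ℝ) ≤ ((N:ℝ) + 1) * (C1 * Real.exp (κ/4 * (2 + KL)) *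
      Real.exp (-(κ/64) * N)) := by
    intro N hNL
    set q := N / 16 with hq
    have hqL : L ≤ q := by omega
    have hqN : 2 * q ≤ N := by omega
    have hsub : Lg (YH H) N ⊆ ⋃ t ∈ (Finset.range (N+1)).filter
        (fun t => 2 * q ≤ t ∨ N ≤ 3 * t + 2 * q + KL), Fs H L N t := by
      rintro _ ⟨u, hu, i, rfl⟩
      -- shift to `0`
      have hu' : (fun j => u (j + i)) ∈ YH H := by
        intro j
        have := hu (j + i)
        have e1 : px (fun j => u (j + i)) j = px u (j + i) := by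
          unfold px; congr 1; ext k; show u _ = u _; congr 1; ring
        have e2 : py (fun j => u (j + i)) j = py u (j + i) := by
          unfold py; congr 1; ext k; show u _ = u _; congr 1; ring
        rw [e1, e2]; exact this
      obtain ⟨t, hF, ht⟩ := cover htrap hL (fun j => u (j + i)) hqL hqN
      rw [Set.mem_iUnion₂]
      refine ⟨t, ?_, _, hu', 0, hF, ?_⟩
      · rw [Finset.mem_filter, Finset.mem_range]
        refine ⟨by have := Fam_le hF; omega, ?_⟩
        rw [hKL]; exact ht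
      · rw [W_eq_iff]; intro k _; congr 1; ring
    have hfin : (⋃ t ∈ (Finset.range (N+1)).filter
        (fun t => 2 * q ≤ t ∨ N ≤ 3 * t + 2 * q + KL), Fs H L N t).Finite :=
      Set.Finite.biUnion (Finset.finite_toSet _) (fun t _ => Fs_finite _ _ _ _)
    have h1 : Nw H N ≤ ∑ t ∈ (Finset.range (N+1)).filter
        (fun t => 2 * q ≤ t ∨ N ≤ 3 * t + 2 * q + KL), (Fs H L N t).ncard :=
      (Set.ncard_le_ncard hsub hfin).trans (Finset.set_ncard_biUnion_le _ _)
    have h2 : (Nw H N : ℝ) ≤ ∑ t ∈ (Finset.range (N+1)).filter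
        (fun t => 2 * q ≤ t ∨ N ≤ 3 * t + 2 * q + KL), ((Fs H L N t).ncard : ℝ) := by
      exact_mod_cast h1
    have hqr : (N:ℝ) / 16 - 1 ≤ q := by
      have : N < 16 * (q + 1) := by omega
      have h3 : (N:ℝ) < 16 * (q + 1) := by exact_mod_cast this
      linarith
    have hqr2 : (q:ℝ) ≤ N / 16 := by
      have : 16 * q ≤ N := by omega
      have h3 : 16 * (q:ℝ) ≤ N := by exact_mod_cast this
      linarith
    have h3 : ∀ t ∈ (Finset.range (N+1)).filter
        (fun t => 2 * q ≤ t ∨ N ≤ 3 * t + 2 * q + KL), ((Fs H L N t).ncard : ℝ) ≤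
        C1 * Real.exp ((h + κ/128) * N - κ/4 * (N/8 - 2 - KL)) := by
      intro t ht
      rw [Finset.mem_filter] at ht
      refine (hF N t).trans ?_
      apply mul_le_mul_of_nonneg_left _ hC1.le
      apply Real.exp_le_exp.2
      have htr : (N:ℝ)/8 - 2 - KL ≤ t := by
        have hKL0 : (0:ℝ) ≤ KL := by positivity
        have hN0 : (0:ℝ) ≤ N := by positivity
        rcases ht.2 with h4 | h4
        · have h5 : 2 * (q:ℝ) ≤ t := by exact_mod_cast h4
          linarith
        · have h5 : (N:ℝ) ≤ 3 * t + 2 * q + KL := by exact_mod_cast h4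
          linarith
      have h6 : κ/4 * ((N:ℝ)/8 - 2 - KL) ≤ κ/4 * t :=
        mul_le_mul_of_nonneg_left htr (by positivity)
      have e : (h + 2 * (κ/256)) = h + κ/128 := by ring
      rw [e]; linarith
    have h4 := Finset.sum_le_card_nsmul _ _ _ h3
    have h5 : (((Finset.range (N+1)).filter
        (fun t => 2 * q ≤ t ∨ N ≤ 3 * t + 2 * q + KL)).card : ℝ) ≤ N + 1 := by
      have := Finset.card_filter_le (Finset.range (N+1))
        (fun t => 2 * q ≤ t ∨ N ≤ 3 * t + 2 * q + KL)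
      rw [Finset.card_range] at this
      exact_mod_cast this
    rw [nsmul_eq_mul] at h4
    have h6 := Nw_lower hne N
    rw [← hh] at h6
    have h7 : Real.exp (h * N) ≤ (N + 1) * (C1 * Real.exp ((h + κ/128) * N -
        κ/4 * (N/8 - 2 - KL))) := by
      refine h6.trans (h2.trans (h4.trans ?_))
      apply mul_le_mul_of_nonneg_right h5 (by positivity)
    have e1 : Real.exp ((h + κ/128) * N - κ/4 * (N/8 - 2 - KL)) =
        Real.exp (h * N) * (Real.exp (κ/4 * (2 + KL)) * Real.exp (-(3*κ/128) * N)) := by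
      rw [← Real.exp_add, ← Real.exp_add]; congr 1; ring
    rw [e1] at h7
    have h8 : 0 < Real.exp (h * N) := Real.exp_pos _
    have h9 : Real.exp (h * N) * 1 ≤ Real.exp (h * N) * ((N + 1) * (C1 *
        (Real.exp (κ/4 * (2 + KL)) * Real.exp (-(3*κ/128) * N)))) := by
      rw [mul_one]; calc _ ≤ _ := h7
        _ = _ := by ring
    have h10 := le_of_mul_le_mul_left h9 h8
    refine h10.trans ?_
    rw [mul_assoc C1]
    apply mul_le_mul_of_nonneg_left _ (by positivity)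
    apply mul_le_mul_of_nonneg_left _ hC1.le
    apply mul_le_mul_of_nonneg_left _ (Real.exp_pos _).le
    apply Real.exp_le_exp.2
    have hN0 : (0:ℝ) ≤ N := by positivity
    nlinarith
  have hfinal : Tendsto (fun N : ℕ => ((N:ℝ) + 1) * (C1 * Real.exp (κ/4 * (2 + KL)) *
      Real.exp (-(κ/64) * N))) atTop (𝓝 0) := by
    have h1 : Tendsto (fun x : ℝ => x * Real.exp (-(κ/64) * x)) atTop (𝓝 0) := by
      have := Real.tendsto_pow_mul_exp_neg_atTop_nhds_zero 1
      have h2 := (this.comp (tendsto_id.const_mul_atTop (by positivity : 0 < κ/64))).const_mul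
        (κ/64)⁻¹
      rw [mul_zero] at h2
      refine h2.congr (fun x => ?_)
      simp only [Function.comp, id, pow_one]
      rw [← mul_assoc, ← mul_assoc, inv_mul_cancel₀ (by positivity), one_mul, neg_mul]
    have h2 : Tendsto (fun x : ℝ => Real.exp (-(κ/64) * x)) atTop (𝓝 0) :=
      Real.tendsto_exp_atBot.comp (Tendsto.const_mul_atTop_of_neg (by linarith) tendsto_id)
    have h3 := ((h1.add h2).const_mul (C1 * Real.exp (κ/4 * (2 + KL)))).comp
      (tendsto_natCast_atTop_atTop (R := ℝ))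
    rw [add_zero, mul_zero] at h3
    refine h3.congr (fun N => ?_)
    simp only [Function.comp]
    ring
  obtain ⟨N, hN1, hN2⟩ := ((hfinal.eventually (gt_mem_nhds (zero_lt_one))).and
    (eventually_ge_atTop (16 * L))).exists
  exact absurd (hmain N hN2) (not_le.2 hN1)

end Pool.Agent.Q67.TR
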